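import Mathlib

/-!
# Fractional coverings (subtour form): definitions and the algebra of cuts (helper98, for the exchange (E) of helper31)
-/

set_option autoImplicit false
set_option linter.unusedSectionVars false

open scoped Classical in
noncomputable section

namespace Pool.Agent.Lib.H98SB

variable {V : Type*} [Fintype V] [DecidableEq V]

/-- The degree of the vertex `v` for the weights `x`. -/
def deg (x : V → V → ℝ) (v : V) : ℝ := ∑ w, x v w

/-- The weight of the cut of `S`. -/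
def cut (x : V → V → ℝ) (S : Finset V) : ℝ := ∑ u, ∑ w, if u ∈ S ∧ w ∉ S then x u w else 0

/-- Admissible weights: symmetric, nonnegative, on the edges of `G`, all degrees at most 2. -/
structure Fs (G : SimpleGraph V) (x : V → V → ℝ) : Prop where
  symm : ∀ u v, x u v = x v u
  nonneg : ∀ u v, 0 ≤ x u v
  supp : ∀ u v, x u v ≠ 0 → G.Adj u v
  le : ∀ v, deg x v ≤ 2

/-- `S` separates two vertices of `A`. -/
def Sep (S A : Finset V) : Prop := (∃ a ∈ A, a ∈ S) ∧ ∃ a ∈ A, a ∉ S

/-- `G` has admissible weights such that every cut which separates `A` has weight at least 2. -/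
def Pi (G : SimpleGraph V) (A : Finset V) : Prop := ∃ x, Fs G x ∧ ∀ S, Sep S A → 2 ≤ cut x S

omit [DecidableEq V] in
lemma deg_add (x y : V → V → ℝ) (v : V) : deg (x + y) v = deg x v + deg y v := by
  simp [deg, Finset.sum_add_distrib]

omit [DecidableEq V] in
lemma deg_smul (c : ℝ) (x : V → V → ℝ) (v : V) : deg (c • x) v = c * deg x v := by
  simp [deg, Finset.mul_sum]

lemma cut_add (x y : V → V → ℝ) (S : Finset V) : cut (x + y) S = cut x S + cut y S := by
  simp only [cut, ← Finset.sum_add_distrib]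
  refine Finset.sum_congr rfl fun u _ => Finset.sum_congr rfl fun w _ => ?_
  split_ifs <;> simp

lemma cut_smul (c : ℝ) (x : V → V → ℝ) (S : Finset V) : cut (c • x) S = c * cut x S := by
  simp only [cut, Finset.mul_sum]
  refine Finset.sum_congr rfl fun u _ => Finset.sum_congr rfl fun w _ => ?_
  split_ifs <;> simp

lemma cut_nonneg {x : V → V → ℝ} (hx : ∀ u v, 0 ≤ x u v) (S : Finset V) : 0 ≤ cut x S := by
  refine Finset.sum_nonneg fun u _ => Finset.sum_nonneg fun w _ => ?_
  split_ifs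
  · exact hx u w
  · exact le_rfl

lemma cut_compl {x : V → V → ℝ} (hx : ∀ u v, x u v = x v u) (S : Finset V) : cut x Sᶜ = cut x S := by
  unfold cut
  rw [Finset.sum_comm]
  refine Finset.sum_congr rfl fun u _ => Finset.sum_congr rfl fun w _ => ?_
  simp only [Finset.mem_compl, not_not]
  rw [hx w u]
  exact if_congr ⟨fun h => ⟨h.2, h.1⟩, fun h => ⟨h.2, h.1⟩⟩ rfl rfl

/-- Cuts are submodular. -/
lemma cut_inter_union {x : V → V → ℝ} (hx : ∀ u v, 0 ≤ x u v) (X Y : Finset V) :
    cut x (X ∩ Y) + cut x (X ∪ Y) ≤ cut x X + cut x Y := by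
  simp only [cut, ← Finset.sum_add_distrib]
  refine Finset.sum_le_sum fun u _ => Finset.sum_le_sum fun w _ => ?_
  have := hx u w
  simp only [Finset.mem_inter, Finset.mem_union]
  by_cases h1 : u ∈ X <;> by_cases h2 : u ∈ Y <;> by_cases h3 : w ∈ X <;> by_cases h4 : w ∈ Y <;>
    simp [h1, h2, h3, h4, this]

lemma cut_singleton {x : V → V → ℝ} (h0 : ∀ u, x u u = 0) (v : V) : cut x {v} = deg x v := by
  unfold cut deg
  rw [Finset.sum_eq_single v]
  · refine Finset.sum_congr rfl fun w _ => ?_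
    by_cases h : w = v
    · subst h; simp [h0]
    · simp [h]
  · intro u _ hu
    refine Finset.sum_eq_zero fun w _ => ?_
    simp [hu]
  · simp

lemma Fs.diag {G : SimpleGraph V} {x : V → V → ℝ} (h : Fs G x) (u : V) : x u u = 0 := by
  by_contra h0
  exact G.loopless.irrefl u (h.supp u u h0)

lemma Sep.mono {S A B : Finset V} (h : Sep S A) (hAB : A ⊆ B) : Sep S B := by
  obtain ⟨⟨a, ha, h1⟩, b, hb, h2⟩ := h
  exact ⟨⟨a, hAB ha, h1⟩, b, hAB hb, h2⟩

lemma sep_compl {S A : Finset V} : Sep Sᶜ A ↔ Sep S A := by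
  simp only [Sep, Finset.mem_compl, not_not]
  exact ⟨fun h => ⟨h.2, h.1⟩, fun h => ⟨h.2, h.1⟩⟩

lemma Pi.anti {G : SimpleGraph V} {A B : Finset V} (h : Pi G B) (hAB : A ⊆ B) : Pi G A := by
  obtain ⟨x, hx, h⟩ := h
  exact ⟨x, hx, fun S hS => h S (hS.mono hAB)⟩

lemma Pi.mono {G H : SimpleGraph V} {A : Finset V} (h : Pi G A) (hGH : G ≤ H) : Pi H A := by
  obtain ⟨x, hx, h⟩ := h
  exact ⟨x, ⟨hx.symm, hx.nonneg, fun u v h' => hGH (hx.supp u v h'), hx.le⟩, h⟩

/-- The weight 1 on the edge `uv`. -/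
def ed (u v : V) : V → V → ℝ := fun a b => if (a = u ∧ b = v) ∨ (a = v ∧ b = u) then 1 else 0

lemma ed_symm (u v a b : V) : ed u v a b = ed u v b a := by
  unfold ed
  exact if_congr ⟨fun h => by tauto, fun h => by tauto⟩ rfl rfl

lemma ed_nonneg (u v a b : V) : 0 ≤ ed u v a b := by
  unfold ed; split_ifs <;> norm_num

lemma ed_deg_ne {u v a : V} (hu : a ≠ u) (hv : a ≠ v) : deg (ed u v) a = 0 := by
  unfold deg ed
  exact Finset.sum_eq_zero fun w _ => by simp [hu, hv]

lemma ed_deg_left {u v : V} (h : u ≠ v) : deg (ed u v) u = 1 := by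
  unfold deg ed
  rw [Finset.sum_eq_single v]
  · simp
  · intro w _ hw; simp [hw, h]
  · simp

lemma ed_deg_right {u v : V} (h : u ≠ v) : deg (ed u v) v = 1 := by
  unfold deg ed
  rw [Finset.sum_eq_single u]
  · simp
  · intro w _ hw; simp [hw, h.symm]
  · simp

lemma ed_cut_of_not {u v : V} {S : Finset V} (h : (u ∈ S ↔ v ∈ S)) : cut (ed u v) S = 0 := by
  unfold cut ed
  refine Finset.sum_eq_zero fun a _ => Finset.sum_eq_zero fun b _ => ?_
  split_ifs with h1 h2
  · exfalso
    rcases h2 with ⟨rfl, rfl⟩ | ⟨rfl, rfl⟩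
    · exact h1.2 (h.1 h1.1)
    · exact h1.2 (h.2 h1.1)
  · rfl
  · rfl

lemma ed_cut_of {u v : V} {S : Finset V} (hu : u ∈ S) (hv : v ∉ S) : cut (ed u v) S = 1 := by
  unfold cut ed
  have huv : u ≠ v := fun h => hv (h ▸ hu)
  rw [Finset.sum_eq_single u]
  · rw [Finset.sum_eq_single v]
    · simp [hu, hv]
    · intro w _ hw
      split_ifs with h1 h2
      · rcases h2 with ⟨_, h2⟩ | ⟨h2, _⟩
        · exact absurd h2 hw
        · exact absurd h2 huv
      · rfl
      · rfl
    · simp
  · intro a _ ha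
    refine Finset.sum_eq_zero fun w _ => ?_
    split_ifs with h1 h2
    · rcases h2 with ⟨h2, _⟩ | ⟨h2, _⟩
      · exact absurd h2 ha
      · subst h2; exact absurd h1.1 hv
    · rfl
    · rfl
  · simp

lemma ed_cut_le (u v : V) (S : Finset V) : cut (ed u v) S ≤ 1 := by
  by_cases h : (u ∈ S ↔ v ∈ S)
  · rw [ed_cut_of_not h]; norm_num
  · by_cases hu : u ∈ S
    · have hv : v ∉ S := fun hv => h ⟨fun _ => hv, fun _ => hu⟩
      rw [ed_cut_of hu hv]
    · have hv : v ∈ S := by
        by_contra hv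
        exact h ⟨fun h' => absurd h' hu, fun h' => absurd h' hv⟩
      have : ed u v = ed v u := by
        funext a b; unfold ed
        exact if_congr ⟨fun h => by tauto, fun h => by tauto⟩ rfl rfl
      rw [this, ed_cut_of hv hu]

end Pool.Agent.Lib.H98SB
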