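import Pool.Agent.Lib.H98SB.D

/-!
# H98SB, file E1: first order improvements and weights of least total weight
-/

set_option autoImplicit false
set_option linter.unusedSectionVars false

noncomputable section

namespace Pool.Agent.Lib.H98SB

open Filter Topology

variable {V : Type*} [Fintype V] [DecidableEq V]

lemma ev_le {a c g : ℝ} (h : c ≤ a) (h' : a = c → 0 ≤ g) : ∀ᶠ ε in 𝓝[>] (0 : ℝ), c ≤ a + ε * g := by
  rcases h.eq_or_lt with h1 | h1
  · have hg := h' h1.symm
    filter_upwards [self_mem_nhdsWithin] with ε hε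
    have : 0 ≤ ε * g := mul_nonneg (le_of_lt hε) hg
    linarith
  · have hc : Tendsto (fun ε : ℝ => a + ε * g) (𝓝[>] 0) (𝓝 (a + 0 * g)) :=
      ((continuous_const.add (continuous_id.mul continuous_const)).tendsto 0).mono_left nhdsWithin_le_nhds
    have := hc.eventually (lt_mem_nhds (show c < a + 0 * g by linarith))
    filter_upwards [this] with ε hε using hε.le

lemma ev_lt {a c g : ℝ} (h : c ≤ a) (h' : a = c → 0 < g) : ∀ᶠ ε in 𝓝[>] (0 : ℝ), c < a + ε * g := by
  rcases h.eq_or_lt with h1 | h1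
  · have hg := h' h1.symm
    filter_upwards [self_mem_nhdsWithin] with ε hε
    have : 0 < ε * g := mul_pos hε hg
    linarith
  · have hc : Tendsto (fun ε : ℝ => a + ε * g) (𝓝[>] 0) (𝓝 (a + 0 * g)) :=
      ((continuous_const.add (continuous_id.mul continuous_const)).tendsto 0).mono_left nhdsWithin_le_nhds
    exact hc.eventually (lt_mem_nhds (show c < a + 0 * g by linarith))

/-- Small steps in a direction `z` which respects the tight constraints are admissible. -/
lemma ev_fs {G : SimpleGraph V} {x z : V → V → ℝ} (hx : Fs G x) (hs : ∀ u v, z u v = z v u)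
    (hsupp : ∀ u v, z u v ≠ 0 → G.Adj u v) (h1 : ∀ u v, x u v = 0 → 0 ≤ z u v)
    (h2 : ∀ v, deg x v = 2 → deg z v ≤ 0) : ∀ᶠ ε in 𝓝[>] (0 : ℝ), Fs G (x + ε • z) := by
  have e1 : ∀ᶠ ε in 𝓝[>] (0 : ℝ), ∀ p : V × V, 0 ≤ x p.1 p.2 + ε * z p.1 p.2 :=
    eventually_all.2 fun p => ev_le (hx.nonneg _ _) fun h => h1 _ _ h
  have e2 : ∀ᶠ ε in 𝓝[>] (0 : ℝ), ∀ v : V, -2 ≤ -deg x v + ε * -deg z v :=
    eventually_all.2 fun v => ev_le (by linarith [hx.le v]) fun h => by
      have := h2 v (by linarith)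
      linarith
  filter_upwards [e1, e2] with ε h3 h4
  refine ⟨fun u v => ?_, fun u v => ?_, fun u v h => ?_, fun v => ?_⟩
  · simp [hx.symm u v, hs u v]
  · simpa using h3 (u, v)
  · by_contra hG
    have hx0 : x u v = 0 := by
      by_contra h0
      exact hG (hx.supp u v h0)
    have hz0 : z u v = 0 := by
      by_contra h0
      exact hG (hsupp u v h0)
    exact h (by simp [hx0, hz0])
  · rw [deg_add, deg_smul]
    have := h4 v
    linarith

/-- Small steps keep lower bounds for the cuts. -/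
lemma ev_cut {x z : V → V → ℝ} (r : Finset V → ℝ) (P : Finset V → Prop) (h : ∀ S, P S → r S ≤ cut x S)
    (h' : ∀ S, P S → cut x S = r S → 0 ≤ cut z S) :
    ∀ᶠ ε in 𝓝[>] (0 : ℝ), ∀ S, P S → r S ≤ cut (x + ε • z) S := by
  refine eventually_all.2 fun S => ?_
  by_cases hP : P S
  · filter_upwards [ev_le (h S hP) (h' S hP)] with ε hε _
    rw [cut_add, cut_smul]
    exact hε
  · exact Eventually.of_forall fun ε h => absurd h hP

lemma ev_cut_lt {x z : V → V → ℝ} (r : Finset V → ℝ) (P : Finset V → Prop) (h : ∀ S, P S → r S ≤ cut x S)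
    (h' : ∀ S, P S → cut x S = r S → 0 < cut z S) :
    ∀ᶠ ε in 𝓝[>] (0 : ℝ), ∀ S, P S → r S < cut (x + ε • z) S := by
  refine eventually_all.2 fun S => ?_
  by_cases hP : P S
  · filter_upwards [ev_lt (h S hP) (h' S hP)] with ε hε _
    rw [cut_add, cut_smul]
    exact hε
  · exact Eventually.of_forall fun ε h => absurd h hP

/-- The total weight. -/
def tot (x : V → V → ℝ) : ℝ := ∑ v, deg x v

lemma tot_add (x y : V → V → ℝ) : tot (x + y) = tot x + tot y := by
  simp [tot, deg_add, Finset.sum_add_distrib]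

lemma tot_smul (c : ℝ) (x : V → V → ℝ) : tot (c • x) = c * tot x := by
  simp [tot, deg_smul, Finset.mul_sum]

lemma cont_deg (v : V) : Continuous fun x : V → V → ℝ => deg x v := by
  unfold deg
  fun_prop

lemma cont_tot : Continuous fun x : V → V → ℝ => tot x := by
  unfold tot
  exact continuous_finsetSum _ fun v _ => cont_deg v

lemma cont_cut (S : Finset V) : Continuous fun x : V → V → ℝ => cut x S := by
  unfold cut
  refine continuous_finsetSum _ fun u _ => continuous_finsetSum _ fun w _ => ?_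
  split_ifs <;> fun_prop

lemma Fs.le_two {G : SimpleGraph V} {x : V → V → ℝ} (h : Fs G x) (u v : V) : x u v ≤ 2 :=
  (Finset.single_le_sum (f := fun w => x u w) (fun w _ => h.nonneg u w) (Finset.mem_univ v)).trans (h.le u)

lemma closed_fs (G : SimpleGraph V) : IsClosed {x : V → V → ℝ | Fs G x} := by
  have : {x : V → V → ℝ | Fs G x} = {x | (∀ u v, x u v = x v u) ∧ (∀ u v, 0 ≤ x u v) ∧
      (∀ u v, ¬ G.Adj u v → x u v = 0) ∧ ∀ v, deg x v ≤ 2} := by
    ext x
    constructor
    · intro h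
      exact ⟨h.symm, h.nonneg, fun u v hn => by
        by_contra h0
        exact hn (h.supp u v h0), h.le⟩
    · rintro ⟨h1, h2, h3, h4⟩
      exact ⟨h1, h2, fun u v h => by
        by_contra h0
        exact h (h3 u v h0), h4⟩
  rw [this]
  simp only [Set.ofPred_and, Set.ofPred_forall]
  refine (isClosed_iInter fun u => isClosed_iInter fun v => isClosed_eq (by fun_prop) (by fun_prop)).inter
    ((isClosed_iInter fun u => isClosed_iInter fun v => isClosed_le continuous_const (by fun_prop)).inter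
    ((isClosed_iInter fun u => isClosed_iInter fun v => isClosed_iInter fun _ =>
      isClosed_eq (by fun_prop) continuous_const).inter
    (isClosed_iInter fun v => isClosed_le (cont_deg v) continuous_const)))

/-- The admissible weights with lower bounds for the cuts. -/
def Kr (G : SimpleGraph V) (r : Finset V → ℝ) : Set (V → V → ℝ) := {x | Fs G x ∧ ∀ S, r S ≤ cut x S}

lemma compact_kr (G : SimpleGraph V) (r : Finset V → ℝ) : IsCompact (Kr G r) := by
  have hc : IsClosed (Kr G r) := by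
    unfold Kr
    rw [Set.ofPred_and]
    refine (closed_fs G).inter ?_
    simp only [Set.ofPred_forall]
    exact isClosed_iInter fun S => isClosed_le continuous_const (cont_cut S)
  refine (isCompact_univ_pi (X := fun _ : V => V → ℝ) (s := fun _ => Set.univ.pi fun _ => Set.Icc (0 : ℝ) 2)
    fun _ => isCompact_univ_pi fun _ => isCompact_Icc).of_isClosed_subset hc ?_
  intro x hx u _ v _
  exact ⟨hx.1.nonneg u v, hx.1.le_two u v⟩

/-- Weights of least total weight. -/
lemma exists_least {G : SimpleGraph V} {r : Finset V → ℝ} (h : (Kr G r).Nonempty) :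
    ∃ x ∈ Kr G r, ∀ y ∈ Kr G r, tot x ≤ tot y := by
  obtain ⟨x, hx, h⟩ := (compact_kr G r).exists_isMinOn h cont_tot.continuousOn
  exact ⟨x, hx, fun y hy => h hy⟩

open scoped Classical in
/-- The requirements: cuts which separate `B` get 2, the other cuts which separate `T` get `θ`. -/
noncomputable def rq (B T : Finset V) (θ : ℝ) (S : Finset V) : ℝ := if Sep S B then 2 else if Sep S T then θ else -1

lemma mem_kr {G : SimpleGraph V} {B T : Finset V} {θ : ℝ} (h2 : θ ≤ 2) {x : V → V → ℝ} :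
    x ∈ Kr G (rq B T θ) ↔ Fs G x ∧ (∀ S, Sep S B → 2 ≤ cut x S) ∧ ∀ S, Sep S T → θ ≤ cut x S := by
  constructor
  · rintro ⟨h, h'⟩
    refine ⟨h, fun S hS => ?_, fun S hS => ?_⟩
    · have := h' S
      rw [rq, if_pos hS] at this
      exact this
    · have := h' S
      by_cases hB : Sep S B
      · rw [rq, if_pos hB] at this
        linarith
      · rw [rq, if_neg hB, if_pos hS] at this
        exact this
  · rintro ⟨h, h3, h4⟩
    refine ⟨h, fun S => ?_⟩
    unfold rq
    split_ifs with h5 h6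
    · exact h3 S h5
    · exact h4 S h6
    · linarith [cut_nonneg h.nonneg S]

/-- The largest `θ`. -/
lemma exists_max {G : SimpleGraph V} {B : Finset V} (T : Finset V) (h : Pi G B) :
    ∃ θ : ℝ, 0 ≤ θ ∧ θ ≤ 2 ∧ (Kr G (rq B T θ)).Nonempty ∧
      (θ < 2 → ∀ y, Fs G y → (∀ S, Sep S B → 2 ≤ cut y S) → ¬ ∀ S, Sep S T → θ < cut y S) := by
  let M : Set ((V → V → ℝ) × ℝ) := {p | Fs G p.1 ∧ (∀ S, Sep S B → 2 ≤ cut p.1 S) ∧
    (∀ S, Sep S T → p.2 ≤ cut p.1 S) ∧ 0 ≤ p.2 ∧ p.2 ≤ 2}
  have hMc : IsClosed M := by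
    have e : M = ((fun p : (V → V → ℝ) × ℝ => p.1) ⁻¹' {x | Fs G x}) ∩
        ((⋂ S, ⋂ (_ : Sep S B), {p | 2 ≤ cut p.1 S}) ∩ ((⋂ S, ⋂ (_ : Sep S T), {p | p.2 ≤ cut p.1 S}) ∩
          ({p | 0 ≤ p.2} ∩ {p | p.2 ≤ 2}))) := by
      ext p
      simp [M]
    rw [e]
    refine ((closed_fs G).preimage continuous_fst).inter ((isClosed_iInter fun S => isClosed_iInter fun _ =>
      isClosed_le continuous_const ((cont_cut S).comp continuous_fst)).inter ((isClosed_iInter fun S =>
      isClosed_iInter fun _ => isClosed_le continuous_snd ((cont_cut S).comp continuous_fst)).inter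
      ((isClosed_le continuous_const continuous_snd).inter (isClosed_le continuous_snd continuous_const))))
  have hK : IsCompact M := by
    refine ((isCompact_univ_pi (X := fun _ : V => V → ℝ) (s := fun _ => Set.univ.pi fun _ => Set.Icc (0 : ℝ) 2)
      fun _ => isCompact_univ_pi fun _ => isCompact_Icc).prod (isCompact_Icc (a := (0 : ℝ)) (b := 2))).of_isClosed_subset
      hMc ?_
    rintro p ⟨h1, h2, h3, h4, h5⟩
    exact ⟨fun u _ v _ => ⟨h1.nonneg u v, h1.le_two u v⟩, h4, h5⟩
  obtain ⟨x, hx, hxc⟩ := h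
  have hne : M.Nonempty := ⟨(x, 0), hx, hxc, fun S _ => cut_nonneg hx.nonneg S, le_rfl, by norm_num⟩
  obtain ⟨p, ⟨h1, h2, h3, h4, h5⟩, hmax⟩ := hK.exists_isMaxOn hne continuous_snd.continuousOn
  refine ⟨p.2, h4, h5, ⟨p.1, (mem_kr h5).2 ⟨h1, h2, h3⟩⟩, fun hlt y hy hyB hyT => ?_⟩
  have ev : ∀ᶠ t in 𝓝[>] p.2, ∀ S, Sep S T → t ≤ cut y S := by
    refine eventually_all.2 fun S => ?_
    by_cases hS : Sep S T
    · filter_upwards [nhdsWithin_le_nhds (gt_mem_nhds (hyT S hS))] with t ht _
      exact le_of_lt ht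
    · exact Eventually.of_forall fun t h => absurd h hS
  have h6 : ∀ᶠ t in 𝓝[>] p.2, p.2 < t := self_mem_nhdsWithin
  have h7 : ∀ᶠ t in 𝓝[>] p.2, t < 2 := nhdsWithin_le_nhds (gt_mem_nhds hlt)
  obtain ⟨t, ht1, ht2, ht3⟩ := (ev.and (h6.and h7)).exists
  have ht2' : p.2 < t := ht2
  have ht3' : t < 2 := ht3
  have := hmax (show (y, t) ∈ M from ⟨hy, hyB, ht1, by linarith, ht3'.le⟩)
  simp only [Set.mem_setOf_eq] at this
  linarith

end Pool.Agent.Lib.H98SB
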