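import Pool.Agent.Lib.H98SB.E1

/-!
# H98SB, file E2: tight cuts, and the degree of a vertex as a minimum cut (Lemma 1)
-/

set_option autoImplicit false
set_option linter.unusedSectionVars false

noncomputable section

namespace Pool.Agent.Lib.H98SB

open Filter Topology

variable {V : Type*} [Fintype V] [DecidableEq V]

lemma deg_nonneg {x : V → V → ℝ} (hx : ∀ u v, 0 ≤ x u v) (v : V) : 0 ≤ deg x v :=
  Finset.sum_nonneg fun w _ => hx v w

/-- For weights of least total weight every positive edge lies in a tight cut. -/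
lemma tight {G : SimpleGraph V} {r : Finset V → ℝ} {x : V → V → ℝ} (hx : x ∈ Kr G r)
    (hmin : ∀ y ∈ Kr G r, tot x ≤ tot y) {u v : V} (h0 : x u v ≠ 0) :
    ∃ S, ¬ (u ∈ S ↔ v ∈ S) ∧ cut x S = r S := by
  by_contra hcon'
  have hcon : ∀ S, ¬ (u ∈ S ↔ v ∈ S) → cut x S ≠ r S := fun S h1 h2 => hcon' ⟨S, h1, h2⟩
  have hG : G.Adj u v := hx.1.supp u v h0
  have huv : u ≠ v := G.ne_of_adj hG
  have key : ∀ a b, ed u v a b ≠ 0 → (a = u ∧ b = v) ∨ (a = v ∧ b = u) := by
    intro a b h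
    by_contra h1
    exact h (by unfold ed; rw [if_neg h1])
  have e1 : ∀ᶠ ε in 𝓝[>] (0 : ℝ), Fs G (x + ε • ((-1 : ℝ) • ed u v)) := by
    refine ev_fs hx.1 (fun a b => ?_) (fun a b h => ?_) (fun a b h => ?_) (fun w _ => ?_)
    · simp [ed_symm u v a b]
    · have h1 : ed u v a b ≠ 0 := fun h2 => h (by simp [h2])
      rcases key a b h1 with ⟨rfl, rfl⟩ | ⟨rfl, rfl⟩
      · exact hG
      · exact hG.symm
    · have h1 : ed u v a b = 0 := by
        by_contra h2
        rcases key a b h2 with ⟨rfl, rfl⟩ | ⟨rfl, rfl⟩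
        · exact h0 h
        · exact h0 (by rw [hx.1.symm]; exact h)
      simp [h1]
    · rw [deg_smul]
      linarith [deg_nonneg (ed_nonneg u v) w]
  have e2 : ∀ᶠ ε in 𝓝[>] (0 : ℝ), ∀ S, True → r S ≤ cut (x + ε • ((-1 : ℝ) • ed u v)) S := by
    refine ev_cut r (fun _ => True) (fun S _ => hx.2 S) (fun S _ hS => ?_)
    have h1 : (u ∈ S ↔ v ∈ S) := by
      by_contra h2
      exact hcon S h2 hS
    rw [cut_smul, ed_cut_of_not h1]
    simp
  have e3 : ∀ᶠ ε in 𝓝[>] (0 : ℝ), 0 < ε := self_mem_nhdsWithin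
  obtain ⟨ε, ⟨h3, h4⟩, hε⟩ := ((e1.and e2).and e3).exists
  have h5 := hmin _ ⟨h3, fun S => h4 S trivial⟩
  rw [tot_add, tot_smul, tot_smul] at h5
  have h6 : 1 ≤ tot (ed u v) := by
    have := Finset.single_le_sum (f := fun w => deg (ed u v) w) (fun w _ => deg_nonneg (ed_nonneg u v) w)
      (Finset.mem_univ u)
    rw [ed_deg_left huv] at this
    exact this
  nlinarith

/-- A tight cut with the end `u` inside. -/
lemma tight' {G : SimpleGraph V} {r : Finset V → ℝ} (hrc : ∀ S, r Sᶜ = r S) {x : V → V → ℝ} (hx : x ∈ Kr G r)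
    (hmin : ∀ y ∈ Kr G r, tot x ≤ tot y) {u v : V} (h0 : x u v ≠ 0) :
    ∃ S, u ∈ S ∧ v ∉ S ∧ cut x S = r S := by
  obtain ⟨S, h1, h2⟩ := tight hx hmin h0
  by_cases hu : u ∈ S
  · exact ⟨S, hu, fun hv => h1 ⟨fun _ => hv, fun _ => hu⟩, h2⟩
  · refine ⟨Sᶜ, by simpa using hu, ?_, by rw [cut_compl hx.1.symm, hrc, h2]⟩
    simp only [Finset.mem_compl, not_not]
    by_contra hv
    exact h1 ⟨fun h => absurd h hu, fun h => absurd h hv⟩

/-- LEMMA 1: the degree of `u` is the least weight of a cut around `u` which avoids the other terminals. -/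
lemma one {G : SimpleGraph V} {r : Finset V → ℝ} {T : Finset V}
    (hr : ∀ S S' : Finset V, (∀ a ∈ T, a ∈ S ↔ a ∈ S') → r S = r S')
    (hrc : ∀ S, r Sᶜ = r S) {x : V → V → ℝ} (hx : x ∈ Kr G r)
    (hmin : ∀ y ∈ Kr G r, tot x ≤ tot y) (u : V) :
    ∀ (n : ℕ) (S : Finset V), S.card = n → u ∈ S → (∀ a ∈ S, a ∈ T → a = u) → deg x u ≤ cut x S := by
  intro n
  induction n using Nat.strong_induction_on with
  | _ n ih =>
    intro S hn hu hT
    by_cases h : ∃ v ∈ S, v ≠ u ∧ x u v ≠ 0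
    · obtain ⟨v, hv, hvu, h0⟩ := h
      obtain ⟨X, h1, h2, h3⟩ := tight' hrc hx hmin h0
      have hlt : (X ∩ S).card < n := by
        rw [← hn]
        refine Finset.card_lt_card ⟨Finset.inter_subset_right, fun h4 => h2 ?_⟩
        exact (Finset.mem_inter.1 (h4 hv)).1
      have h4 := ih _ hlt (X ∩ S) rfl (Finset.mem_inter.2 ⟨h1, hu⟩)
        (fun a ha haT => hT a (Finset.mem_inter.1 ha).2 haT)
      have h5 : r (X ∪ S) = r X := by
        refine hr _ _ fun a ha => ⟨fun h => ?_, fun h => Finset.mem_union_left _ h⟩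
        rcases Finset.mem_union.1 h with h | h
        · exact h
        · rw [hT a h ha]; exact h1
      have h6 := hx.2 (X ∪ S)
      have h7 := cut_inter_union hx.1.nonneg X S
      rw [h5] at h6
      linarith
    · push Not at h
      unfold cut
      refine le_trans ?_ (Finset.single_le_sum (f := fun u => ∑ w, if u ∈ S ∧ w ∉ S then x u w else 0)
        (fun a _ => Finset.sum_nonneg fun w _ => ?_) (Finset.mem_univ u))
      · unfold deg
        refine Finset.sum_le_sum fun w _ => ?_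
        by_cases hw : w ∈ S
        · by_cases hwu : w = u
          · rw [hwu, hx.1.diag]
            split_ifs <;> exact le_rfl
          · rw [h w hw hwu]
            split_ifs <;> exact le_rfl
        · rw [if_pos ⟨hu, hw⟩]
      · split_ifs
        · exact hx.1.nonneg _ _
        · exact le_rfl

lemma rq_congr {B T : Finset V} (hBT : B ⊆ T) {θ : ℝ} (S S' : Finset V) (h : ∀ a ∈ T, a ∈ S ↔ a ∈ S') :
    rq B T θ S = rq B T θ S' := by
  have key : ∀ A ⊆ T, (Sep S A ↔ Sep S' A) := by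
    intro A hA
    unfold Sep
    constructor
    · rintro ⟨⟨a, ha, h1⟩, b, hb, h2⟩
      exact ⟨⟨a, ha, (h a (hA ha)).1 h1⟩, b, hb, fun h3 => h2 ((h b (hA hb)).2 h3)⟩
    · rintro ⟨⟨a, ha, h1⟩, b, hb, h2⟩
      exact ⟨⟨a, ha, (h a (hA ha)).2 h1⟩, b, hb, fun h3 => h2 ((h b (hA hb)).1 h3)⟩
  have k1 : Sep S B = Sep S' B := propext (key B hBT)
  have k2 : Sep S T = Sep S' T := propext (key T subset_rfl)
  unfold rq
  by_cases h1 : Sep S' B
  · rw [if_pos h1, if_pos (k1 ▸ h1)]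
  · rw [if_neg h1, if_neg (by rw [k1]; exact h1)]
    by_cases h2 : Sep S' T
    · rw [if_pos h2, if_pos (by rw [k2]; exact h2)]
    · rw [if_neg h2, if_neg (by rw [k2]; exact h2)]

lemma rq_compl {B T : Finset V} {θ : ℝ} (S : Finset V) : rq B T θ Sᶜ = rq B T θ S := by
  unfold rq
  by_cases h1 : Sep S B
  · rw [if_pos h1, if_pos (sep_compl.2 h1)]
  · rw [if_neg h1, if_neg (fun h => h1 (sep_compl.1 h))]
    by_cases h2 : Sep S T
    · rw [if_pos h2, if_pos (sep_compl.2 h2)]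
    · rw [if_neg h2, if_neg (fun h => h2 (sep_compl.1 h))]

end Pool.Agent.Lib.H98SB
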