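import Pool.Agent.Lib.H98SB.E2

/-!
# H98SB, file E3: the weights of a path which stops at its first saturated vertex
-/

set_option autoImplicit false
set_option linter.unusedSectionVars false

noncomputable section

namespace Pool.Agent.Lib.H98SB

variable {V : Type*} [Fintype V] [DecidableEq V]

lemma ed_ne {u v a b : V} (h : ed u v a b ≠ 0) : (a = u ∧ b = v) ∨ (a = v ∧ b = u) := by
  by_contra h1
  exact h (by unfold ed; rw [if_neg h1])

lemma ed_cross {u v : V} {S : Finset V} (h : ¬ (u ∈ S ↔ v ∈ S)) : cut (ed u v) S = 1 := by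
  by_cases hu : u ∈ S
  · have hv : v ∉ S := fun hv => h ⟨fun _ => hv, fun _ => hu⟩
    exact ed_cut_of hu hv
  · have hv : v ∈ S := by
      by_contra hv
      exact h ⟨fun h' => absurd h' hu, fun h' => absurd h' hv⟩
    have : ed u v = ed v u := by
      funext a b; unfold ed
      exact if_congr ⟨fun h => by tauto, fun h => by tauto⟩ rfl rfl
    rw [this, ed_cut_of hv hu]

lemma path_w {G : SimpleGraph V} (sat : V → Prop) {s d : V} (q : G.Walk s d) (hq : q.IsPath) (hsd : s ≠ d)
    (hd : sat d) :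
    ∃ (w : V) (p : V → V → ℝ), w ∈ q.support ∧ w ≠ s ∧ sat w ∧ (∀ a b, p a b = p b a) ∧ (∀ a b, 0 ≤ p a b) ∧
      (∀ a b, p a b ≠ 0 → G.Adj a b) ∧ (∀ a b, a ∉ q.support → p a b = 0) ∧
      (∀ a, a ≠ s → a ≠ w → deg p a ≠ 0 → ¬ sat a) ∧ deg p s ≤ 1 ∧ deg p w ≤ 1 ∧
      (∀ S : Finset V, ¬ (s ∈ S ↔ w ∈ S) → 1 ≤ cut p S) := by
  induction q with
  | nil => exact absurd rfl hsd
  | @cons s s1 d h q1 ih =>
    rw [SimpleGraph.Walk.cons_isPath_iff] at hq
    obtain ⟨hq1, hs⟩ := hq
    have hne : s ≠ s1 := G.ne_of_adj h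
    have hadj : ∀ a b, ed s s1 a b ≠ 0 → G.Adj a b := by
      intro a b hab
      rcases ed_ne hab with ⟨rfl, rfl⟩ | ⟨rfl, rfl⟩
      · exact h
      · exact h.symm
    by_cases hs1 : sat s1
    · refine ⟨s1, ed s s1, ?_, hne.symm, hs1, ed_symm s s1, ed_nonneg s s1, hadj, ?_, ?_, ?_, ?_, ?_⟩
      · simp
      · intro a b ha
        by_contra h0
        refine ha ?_
        rcases ed_ne h0 with ⟨rfl, rfl⟩ | ⟨rfl, rfl⟩ <;> simp
      · intro a h1 h2 h3
        exact absurd (ed_deg_ne h1 h2) h3
      · rw [ed_deg_left hne]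
      · rw [ed_deg_right hne]
      · intro S hS
        rw [ed_cross hS]
    · have hs1d : s1 ≠ d := fun e => hs1 (e ▸ hd)
      obtain ⟨w, p, hw, hws, hsw, h1, h2, h3, h4, h5, h6, h7, h8⟩ := ih hq1 hs1d hd
      have hwne : w ≠ s := fun e => hs (e ▸ hw)
      have hps : deg p s = 0 := Finset.sum_eq_zero fun b _ => h4 s b hs
      refine ⟨w, ed s s1 + p, ?_, hwne, hsw, ?_, ?_, ?_, ?_, ?_, ?_, ?_, ?_⟩
      · rw [SimpleGraph.Walk.support_cons]
        exact List.mem_cons_of_mem _ hw
      · intro a b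
        simp [ed_symm s s1 a b, h1 a b]
      · intro a b
        simpa using add_nonneg (ed_nonneg s s1 a b) (h2 a b)
      · intro a b hab
        by_cases h9 : ed s s1 a b = 0
        · refine h3 a b fun h10 => hab ?_
          simp [h9, h10]
        · exact hadj a b h9
      · intro a b ha
        rw [SimpleGraph.Walk.support_cons, List.mem_cons, not_or] at ha
        have h9 : ed s s1 a b = 0 := by
          by_contra h0
          rcases ed_ne h0 with ⟨rfl, rfl⟩ | ⟨rfl, rfl⟩
          · exact ha.1 rfl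
          · exact ha.2 (by simp)
        simp [h9, h4 a b ha.2]
      · intro a h9 h10 h11
        by_cases h12 : a = s1
        · rw [h12]; exact hs1
        · rw [deg_add, ed_deg_ne h9 h12, zero_add] at h11
          exact h5 a h12 h10 h11
      · rw [deg_add, ed_deg_left hne, hps]
        norm_num
      · rw [deg_add, ed_deg_ne hwne hws, zero_add]
        exact h7
      · intro S hS
        rw [cut_add]
        by_cases h9 : (s ∈ S ↔ s1 ∈ S)
        · have := h8 S (by rw [← h9]; exact hS)
          linarith [cut_nonneg (ed_nonneg s s1) S]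
        · rw [ed_cross h9]
          linarith [cut_nonneg h2 S]

end Pool.Agent.Lib.H98SB
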