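import Pool.Agent.Lib.H98SB.E3

/-!
# H98SB, file E4: the exchange property of the fractional coverings (helper31's (E))
-/

set_option autoImplicit false
set_option linter.unusedSectionVars false

noncomputable section

namespace Pool.Agent.Lib.H98SB

open Filter Topology

variable {V : Type*} [Fintype V] [DecidableEq V]

lemma deg_le_cut {x : V → V → ℝ} (hx : ∀ u v, 0 ≤ x u v) (h0 : ∀ u, x u u = 0) {u : V} {S : Finset V}
    (hu : u ∈ S) (h : ∀ v ∈ S, v ≠ u → x u v = 0) : deg x u ≤ cut x S := by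
  unfold cut
  refine le_trans ?_ (Finset.single_le_sum (f := fun u => ∑ w, if u ∈ S ∧ w ∉ S then x u w else 0)
    (fun a _ => Finset.sum_nonneg fun w _ => ?_) (Finset.mem_univ u))
  · unfold deg
    refine Finset.sum_le_sum fun w _ => ?_
    by_cases hw : w ∈ S
    · by_cases hwu : w = u
      · rw [hwu, h0]
        split_ifs <;> exact le_rfl
      · rw [h w hw hwu]
        split_ifs <;> exact le_rfl
    · rw [if_pos ⟨hu, hw⟩]
  · split_ifs
    · exact hx _ _
    · exact le_rfl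

lemma side_cases {S A : Finset V} {u : V} (h : Sep S (insert u A)) (h' : ¬ Sep S A) :
    ∃ S', u ∈ S' ∧ (∀ a ∈ A, a ∉ S') ∧ (S' = S ∨ S' = Sᶜ) := by
  obtain ⟨⟨a, ha, h1⟩, c, hc, h2⟩ := h
  by_cases hu : u ∈ S
  · refine ⟨S, hu, fun e he he' => ?_, Or.inl rfl⟩
    rcases Finset.mem_insert.1 hc with rfl | hc
    · exact h2 hu
    · exact h' ⟨⟨e, he, he'⟩, c, hc, h2⟩
  · refine ⟨Sᶜ, by simpa using hu, fun e he he' => ?_, Or.inr rfl⟩
    rw [Finset.mem_compl] at he'
    rcases Finset.mem_insert.1 ha with rfl | ha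
    · exact hu h1
    · exact h' ⟨⟨a, ha, h1⟩, e, he, he'⟩

/-- The weights with the two requirements, with Lemma 1 and the maximality of `θ`. -/
structure Side (G : SimpleGraph V) (B T : Finset V) (θ : ℝ) (x : V → V → ℝ) : Prop where
  fs : Fs G x
  cutB : ∀ S, Sep S B → 2 ≤ cut x S
  cutT : ∀ S, Sep S T → θ ≤ cut x S
  one : ∀ u S, u ∈ S → (∀ a ∈ S, a ∈ T → a = u) → deg x u ≤ cut x S
  max : θ < 2 → ∀ y, Fs G y → (∀ S, Sep S B → 2 ≤ cut y S) → ¬ ∀ S, Sep S T → θ < cut y S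
  le : θ ≤ 2

lemma exists_side {G : SimpleGraph V} {B T : Finset V} (hBT : B ⊆ T) (h : Pi G B) :
    ∃ θ x, Side G B T θ x := by
  obtain ⟨θ, h0, h2, hne, hmax⟩ := exists_max T h
  obtain ⟨x, hx, hmin⟩ := exists_least hne
  obtain ⟨h3, h4, h5⟩ := (mem_kr h2).1 hx
  exact ⟨θ, x, h3, h4, h5, fun u S hu hT => one (fun S S' h => rq_congr hBT S S' h) (fun S => rq_compl S) hx hmin u
    S.card S rfl hu hT, hmax, h2⟩

/-- Lemma 2. -/
lemma two {G : SimpleGraph V} {A T : Finset V} {b d u : V} {θ : ℝ} {x : V → V → ℝ} (hA : A.Nonempty)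
    (hT : ∀ a ∈ T, a = b ∨ a = d ∨ a ∈ A)
    (s : Side G (insert b A) T θ x) (hub : u ≠ b) (hdeg : deg x u = 2)
    (hP : ¬ Pi G (insert u A)) :
    ∃ (D : Finset V) (κ : ℝ), u ∈ D ∧ d ∈ D ∧ b ∉ D ∧ (∀ a ∈ A, a ∉ D) ∧ cut x D = κ ∧ κ < 2 ∧
      (∀ S, u ∈ S → (∀ a ∈ A, a ∉ S) → κ ≤ cut x S) ∧
      (∀ S, u ∈ S → (∀ a ∈ A, a ∉ S) → cut x S = κ → D.card ≤ S.card) ∧
      (∀ S, u ∈ S → b ∈ S → d ∉ S → (∀ a ∈ A, a ∉ S) → 4 - κ ≤ cut x S) := by
  classical
  obtain ⟨a0, ha0⟩ := hA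
  -- a set with a small cut
  have hex : ∃ S : Finset V, u ∈ S ∧ (∀ a ∈ A, a ∉ S) ∧ cut x S < 2 := by
    by_contra hcon
    push Not at hcon
    refine hP ⟨x, s.fs, fun S hS => ?_⟩
    by_cases h : Sep S A
    · exact s.cutB S (h.mono (Finset.subset_insert _ _))
    · obtain ⟨S', h1, h2, h3⟩ := side_cases hS h
      have h4 := hcon S' h1 h2
      rcases h3 with rfl | rfl
      · exact h4
      · rwa [cut_compl s.fs.symm] at h4
  obtain ⟨S0, h1, h2, h3⟩ := hex
  obtain ⟨D0, hD0, hmin⟩ := Finset.exists_min_image (Finset.univ.filter fun S : Finset V => u ∈ S ∧ ∀ a ∈ A, a ∉ S)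
    (fun S => cut x S) ⟨S0, by simp only [Finset.mem_filter, Finset.mem_univ, true_and]; exact ⟨h1, h2⟩⟩
  simp only [Finset.mem_filter, Finset.mem_univ, true_and] at hD0 hmin
  obtain ⟨D, hD, hminc⟩ := Finset.exists_min_image
    (Finset.univ.filter fun S : Finset V => (u ∈ S ∧ ∀ a ∈ A, a ∉ S) ∧ cut x S = cut x D0)
    (fun S => S.card) ⟨D0, by simp only [Finset.mem_filter, Finset.mem_univ, true_and]; exact ⟨hD0, trivial⟩⟩
  simp only [Finset.mem_filter, Finset.mem_univ, true_and] at hD hminc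
  obtain ⟨⟨h4, h5⟩, h6⟩ := hD
  have hκ : cut x D0 < 2 := lt_of_le_of_lt (hmin S0 ⟨h1, h2⟩) h3
  have hbD : b ∉ D := fun hb => by
    have := s.cutB D ⟨⟨b, Finset.mem_insert_self _ _, hb⟩, a0, Finset.mem_insert_of_mem ha0, h5 a0 ha0⟩
    linarith
  have hdD : d ∈ D := by
    by_contra hd
    have := s.one u D h4 (fun a ha haT => by
      rcases hT a haT with rfl | rfl | h
      · exact absurd ha hbD
      · exact absurd ha hd
      · exact absurd ha (h5 a h))
    linarith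
  refine ⟨D, cut x D0, h4, hdD, hbD, h5, h6, hκ, fun S h7 h8 => hmin S ⟨h7, h8⟩,
    fun S h7 h8 h9 => hminc S ⟨⟨h7, h8⟩, h9⟩, fun S h7 h8 h9 h10 => ?_⟩
  have h11 := s.one u (S ∩ D) (Finset.mem_inter.2 ⟨h7, h4⟩) (fun a ha haT => by
    rw [Finset.mem_inter] at ha
    rcases hT a haT with rfl | rfl | h
    · exact absurd ha.2 hbD
    · exact absurd ha.1 h9
    · exact absurd ha.2 (h5 a h))
  have h12 := s.cutB (S ∪ D) ⟨⟨b, Finset.mem_insert_self _ _, Finset.mem_union_left _ h8⟩, a0,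
    Finset.mem_insert_of_mem ha0, by
      rw [Finset.mem_union, not_or]
      exact ⟨h10 a0 ha0, h5 a0 ha0⟩⟩
  have h13 := cut_inter_union s.fs.nonneg S D
  linarith

lemma fs_conv {G : SimpleGraph V} {x y : V → V → ℝ} (hx : Fs G x) (hy : Fs G y) {s t : ℝ} (hs : 0 ≤ s) (ht : 0 ≤ t)
    (hst : s + t = 1) : Fs G (s • x + t • y) := by
  refine ⟨fun u v => ?_, fun u v => ?_, fun u v h => ?_, fun v => ?_⟩
  · simp [hx.symm u v, hy.symm u v]
  · simpa using add_nonneg (mul_nonneg hs (hx.nonneg u v)) (mul_nonneg ht (hy.nonneg u v))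
  · by_contra hG
    have hx0 : x u v = 0 := by
      by_contra h0
      exact hG (hx.supp u v h0)
    have hy0 : y u v = 0 := by
      by_contra h0
      exact hG (hy.supp u v h0)
    exact h (by simp [hx0, hy0])
  · rw [deg_add, deg_smul, deg_smul]
    nlinarith [hx.le v, hy.le v]

/-- Lemma 3: an inner vertex is not saturated in both. -/
lemma three {G : SimpleGraph V} {A T : Finset V} {b d u : V} {θ θ' : ℝ} {x x' : V → V → ℝ} (hA : A.Nonempty)
    (hT : ∀ a ∈ T, a = b ∨ a = d ∨ a ∈ A)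
    (s : Side G (insert b A) T θ x) (s' : Side G (insert d A) T θ' x') (hub : u ≠ b) (hud : u ≠ d)
    (hdeg : deg x u = 2) (hdeg' : deg x' u = 2) (hP : ¬ Pi G (insert u A)) : False := by
  obtain ⟨D, κ, -, -, -, -, -, hκ, hmin, -, h4⟩ := two hA hT s hub hdeg hP
  obtain ⟨D', κ', -, -, -, -, -, hκ', hmin', -, h4'⟩ := two (b := d) (d := b) hA
    (fun a ha => by rcases hT a ha with h | h | h <;> tauto) s' hud hdeg' hP
  obtain ⟨a0, ha0⟩ := hA
  have hpos : 0 < (2 - κ) + (2 - κ') := by linarith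
  set t : ℝ := (2 - κ) / ((2 - κ) + (2 - κ')) with ht
  have ht0 : 0 ≤ t := div_nonneg (by linarith) hpos.le
  have ht1 : t ≤ 1 := by
    rw [ht, div_le_one hpos]
    linarith
  have hbal : (1 - t) * (2 - κ) = t * (2 - κ') := by
    rw [ht]
    field_simp
    ring
  refine hP ⟨(1 - t) • x + t • x', fs_conv s.fs s'.fs (by linarith) ht0 (by ring), fun S hS => ?_⟩
  rw [cut_add, cut_smul, cut_smul]
  by_cases h : Sep S A
  · have h1 := s.cutB S (h.mono (Finset.subset_insert _ _))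
    have h2 := s'.cutB S (h.mono (Finset.subset_insert _ _))
    nlinarith
  · obtain ⟨S', h1, h2, h3⟩ := side_cases hS h
    have e1 : cut x S' = cut x S := by
      rcases h3 with rfl | rfl
      · rfl
      · exact cut_compl s.fs.symm _
    have e2 : cut x' S' = cut x' S := by
      rcases h3 with rfl | rfl
      · rfl
      · exact cut_compl s'.fs.symm _
    rw [← e1, ← e2]
    by_cases hb : b ∈ S'
    · have k1 := s.cutB S' ⟨⟨b, Finset.mem_insert_self _ _, hb⟩, a0, Finset.mem_insert_of_mem ha0, h2 a0 ha0⟩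
      by_cases hd : d ∈ S'
      · have k2 := s'.cutB S' ⟨⟨d, Finset.mem_insert_self _ _, hd⟩, a0, Finset.mem_insert_of_mem ha0, h2 a0 ha0⟩
        nlinarith
      · have k3 := h4 S' h1 hb hd h2
        have k4 := hmin' S' h1 h2
        nlinarith
    · by_cases hd : d ∈ S'
      · have k3 := h4' S' h1 hd hb h2
        have k4 := hmin S' h1 h2
        nlinarith
      · have hT' : ∀ a ∈ S', a ∈ T → a = u := fun a ha haT => by
          rcases hT a haT with rfl | rfl | h5
          · exact absurd ha hb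
          · exact absurd ha hd
          · exact absurd ha (h2 a h5)
        have k1 := s.one u S' h1 hT'
        have k2 := s'.one u S' h1 hT'
        nlinarith

end Pool.Agent.Lib.H98SB
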