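import Pool.Agent.Lib.H98SB.E4

/-!
# H98SB, file E5: the step and the exchange property
-/

set_option autoImplicit false
set_option linter.unusedSectionVars false

noncomputable section

namespace Pool.Agent.Lib.H98SB

open Filter Topology

variable {V : Type*} [Fintype V] [DecidableEq V]

/-- The step: a decrease `m` which is compatible with the tight cuts contradicts the maximality of `θ`. -/
lemma step {G : SimpleGraph V} {A T : Finset V} {b d w : V} {θ θ' : ℝ} {x x' p m : V → V → ℝ} (hA : A.Nonempty)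
    (hT : T = insert d (insert b A)) (hlt : θ < 2)
    (s : Side G (insert b A) T θ x) (s' : Side G (insert d A) T θ' x')
    (hps : ∀ a c, p a c = p c a) (hp0 : ∀ a c, 0 ≤ p a c) (hpG : ∀ a c, p a c ≠ 0 → G.Adj a c)
    (hin : ∀ a, a ≠ b → a ≠ w → deg p a ≠ 0 → deg x a ≠ 2) (hpb : deg p b ≤ 1) (hpw : deg p w ≤ 1)
    (hpc : ∀ S : Finset V, ¬ (b ∈ S ↔ w ∈ S) → 1 ≤ cut p S)
    (hms : ∀ a c, m a c = m c a) (hm0 : ∀ a c, 0 ≤ m a c) (hmx : ∀ a c, m a c ≠ 0 → x a c ≠ 0)
    (hmc : ∀ S, Sep S (insert b A) → cut x S = 2 → cut m S = 0) (hml : ∀ S, cut m S < 2 - θ)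
    (hmw : deg x w = 2 → deg x' w - deg x' b ≤ deg m w)
    (hbw : ∀ S, b ∈ S → w ∈ S → d ∉ S → (∀ a ∈ A, a ∉ S) → 2 < cut x S) : False := by
  obtain ⟨a0, ha0⟩ := hA
  set c : ℝ := 2 - deg x' b with hc
  have hc0 : 0 ≤ c := by linarith [s'.fs.le b]
  set z : V → V → ℝ := x' + ((-1 : ℝ) • x + (c • p + (-1 : ℝ) • m)) with hz
  have zd : ∀ a, deg z a = deg x' a - deg x a + c * deg p a - deg m a := by
    intro a
    rw [hz, deg_add, deg_add, deg_add, deg_smul, deg_smul, deg_smul]
    ring
  have zc : ∀ S, cut z S = cut x' S - cut x S + c * cut p S - cut m S := by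
    intro S
    rw [hz, cut_add, cut_add, cut_add, cut_smul, cut_smul, cut_smul]
    ring
  have za : ∀ u v, z u v = x' u v - x u v + c * p u v - m u v := by
    intro u v
    simp [hz]
    ring
  have e1 : ∀ᶠ ε in 𝓝[>] (0 : ℝ), Fs G (x + ε • z) := by
    refine ev_fs s.fs (fun u v => ?_) (fun u v h => ?_) (fun u v h => ?_) (fun a ha => ?_)
    · rw [za, za, s'.fs.symm u v, s.fs.symm u v, hps u v, hms u v]
    · by_contra hG
      have h1 : x' u v = 0 := by
        by_contra h0
        exact hG (s'.fs.supp u v h0)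
      have h2 : x u v = 0 := by
        by_contra h0
        exact hG (s.fs.supp u v h0)
      have h3 : p u v = 0 := by
        by_contra h0
        exact hG (hpG u v h0)
      have h4 : m u v = 0 := by
        by_contra h0
        exact hmx u v h0 h2
      exact h (by rw [za, h1, h2, h3, h4]; ring)
    · have h4 : m u v = 0 := by
        by_contra h0
        exact hmx u v h0 h
      rw [za, h, h4]
      nlinarith [s'.fs.nonneg u v, mul_nonneg hc0 (hp0 u v)]
    · rw [zd, ha]
      have hm := deg_nonneg hm0 a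
      by_cases hab : a = b
      · subst hab
        nlinarith
      · by_cases haw : a = w
        · subst haw
          have := hmw ha
          nlinarith
        · have h0 : deg p a = 0 := by
            by_contra h0
            exact hin a hab haw h0 ha
          rw [h0]
          linarith [s'.fs.le a]
  have e2 : ∀ᶠ ε in 𝓝[>] (0 : ℝ), ∀ S, Sep S (insert b A) → 2 ≤ cut (x + ε • z) S := by
    refine ev_cut (fun _ => 2) (fun S => Sep S (insert b A)) s.cutB (fun S hS h2 => ?_)
    rw [zc, h2, hmc S hS h2]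
    have hp := mul_nonneg hc0 (cut_nonneg hp0 S)
    by_cases h3 : Sep S (insert d A)
    · linarith [s'.cutB S h3]
    · have h4 : ¬ Sep S A := fun h => h3 (h.mono (Finset.subset_insert _ _))
      obtain ⟨S', h5, h6, h7⟩ := side_cases hS h4
      have e1 : cut x S' = cut x S := by
        rcases h7 with rfl | rfl
        · rfl
        · exact cut_compl s.fs.symm _
      have e2 : cut x' S' = cut x' S := by
        rcases h7 with rfl | rfl
        · rfl
        · exact cut_compl s'.fs.symm _
      have e3 : cut p S' = cut p S := by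
        rcases h7 with rfl | rfl
        · rfl
        · exact cut_compl hps _
      have hd : d ∉ S' := fun hd => h3 (by
        have : Sep S' (insert d A) := ⟨⟨d, Finset.mem_insert_self _ _, hd⟩, a0, Finset.mem_insert_of_mem ha0, h6 a0 ha0⟩
        rcases h7 with rfl | rfl
        · exact this
        · exact sep_compl.1 this)
      have hw : w ∉ S' := fun hw => by
        have := hbw S' h5 hw hd h6
        linarith
      have h8 := hpc S' (fun h => hw (h.1 h5))
      have h9 := s'.one b S' h5 (fun a ha haT => by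
        rw [hT, Finset.mem_insert, Finset.mem_insert] at haT
        rcases haT with rfl | rfl | h
        · exact absurd ha hd
        · rfl
        · exact absurd ha (h6 a h))
      rw [← e2, ← e3]
      nlinarith
  have e3 : ∀ᶠ ε in 𝓝[>] (0 : ℝ), ∀ S, Sep S T → θ < cut (x + ε • z) S := by
    refine ev_cut_lt (fun _ => θ) (fun S => Sep S T) s.cutT (fun S hS h2 => ?_)
    have h3 : ¬ Sep S (insert b A) := fun h => by
      have := s.cutB S h
      linarith
    rw [hT] at hS
    obtain ⟨S', h5, h6, h7⟩ := side_cases hS h3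
    have h8 : Sep S' (insert d A) := ⟨⟨d, Finset.mem_insert_self _ _, h5⟩, a0, Finset.mem_insert_of_mem ha0,
      h6 a0 (Finset.mem_insert_of_mem ha0)⟩
    have h9 : Sep S (insert d A) := by
      rcases h7 with rfl | rfl
      · exact h8
      · exact sep_compl.1 h8
    rw [zc, h2]
    have hp := mul_nonneg hc0 (cut_nonneg hp0 S)
    linarith [s'.cutB S h9, hml S]
  obtain ⟨ε, ⟨h1, h2⟩, h3⟩ := ((e1.and e2).and e3).exists
  exact s.max hlt _ h1 h2 h3

lemma exch_aux {G : SimpleGraph V} {A T : Finset V} {b d : V} {θ θ' : ℝ} {x x' : V → V → ℝ} (hA : A.Nonempty)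
    (hbd : b ≠ d) (hb : b ∉ A) (hd : d ∉ A)
    (hT : T = insert d (insert b A)) (hlt : θ < 2) (hle : θ ≤ θ')
    (s : Side G (insert b A) T θ x) (s' : Side G (insert d A) T θ' x')
    (q : G.Walk b d) (hq : q.IsPath) (hin : ∀ u ∈ q.support, u ≠ b → u ≠ d → ¬ Pi G (insert u A)) : False := by
  classical
  obtain ⟨w, p, hw, hwb, hsw, h1, h2, h3, -, h5, h6, h7, h8⟩ :=
    path_w (fun v => v = d ∨ deg x v = 2) q hq hbd (Or.inl rfl)
  have hTm : ∀ a ∈ T, a = b ∨ a = d ∨ a ∈ A := by
    intro a ha
    rw [hT, Finset.mem_insert, Finset.mem_insert] at ha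
    tauto
  obtain ⟨a0, ha0⟩ := hA
  have hA : A.Nonempty := ⟨a0, ha0⟩
  have hsd : deg x d < 2 := by
    have := s.max hlt x s.fs s.cutB
    push Not at this
    obtain ⟨S, hS, hc⟩ := this
    have h9 : ¬ Sep S (insert b A) := fun h => by
      have := s.cutB S h
      linarith
    rw [hT] at hS
    obtain ⟨S', h10, h11, h12⟩ := side_cases hS h9
    have e1 : cut x S' = cut x S := by
      rcases h12 with rfl | rfl
      · rfl
      · exact cut_compl s.fs.symm _
    have h13 := s.one d S' h10 (fun a ha haT => by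
      rw [hT, Finset.mem_insert] at haT
      rcases haT with rfl | h
      · rfl
      · exact absurd ha (h11 a h))
    linarith
  have hin' : ∀ a, a ≠ b → a ≠ w → deg p a ≠ 0 → deg x a ≠ 2 := fun a k1 k2 k3 k4 => h5 a k1 k2 k3 (Or.inr k4)
  by_cases hwd : w = d
  · subst hwd
    refine step (m := fun _ _ => 0) hA hT hlt s s' h1 h2 h3 hin' h6 h7 h8 (fun _ _ => rfl) (fun _ _ => le_rfl)
      (fun _ _ h => absurd rfl h) (fun S _ _ => ?_) (fun S => ?_) (fun h => ?_) (fun S _ k1 k2 _ => absurd k1 k2)
    · unfold cut; simp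
    · have : cut (fun _ _ : V => (0 : ℝ)) S = 0 := by unfold cut; simp
      rw [this]; linarith
    · linarith
  · have hdeg : deg x w = 2 := hsw.resolve_left hwd
    have hP := hin w hw hwb hwd
    have hwA : w ∉ A := fun h => by
      refine hP ?_
      rw [Finset.insert_eq_of_mem h]
      exact ⟨x, s.fs, fun S hS => s.cutB S (hS.mono (Finset.subset_insert _ _))⟩
    have hdeg' : deg x' w < 2 := by
      rcases (s'.fs.le w).lt_or_eq with h | h
      · exact h
      · exact (three hA hTm s s' hwb hwd hdeg h hP).elim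
    obtain ⟨D, κ, k1, k2, k3, k4, k5, k6, k7, k8, k9⟩ := two hA hTm s hwb hdeg hP
    have hv : ∃ v ∈ D, v ≠ w ∧ x w v ≠ 0 := by
      by_contra hcon
      push Not at hcon
      have := deg_le_cut s.fs.nonneg s.fs.diag k1 hcon
      linarith
    obtain ⟨v, hvD, hvw, hxv⟩ := hv
    set η : ℝ := max 0 (deg x' w - deg x' b) with hη
    have hη0 : 0 ≤ η := le_max_left _ _
    have hdb : θ' ≤ deg x' b := by
      rw [← cut_singleton s'.fs.diag b]
      refine s'.cutT {b} ⟨⟨b, by rw [hT]; simp, by simp⟩, d, by rw [hT]; simp, ?_⟩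
      simp [hbd.symm]
    have hη2 : η < 2 - θ := by
      rw [hη]
      exact max_lt (by linarith) (by linarith)
    refine step (m := η • ed w v) hA hT hlt s s' h1 h2 h3 hin' h6 h7 h8 (fun a c => ?_) (fun a c => ?_)
      (fun a c h => ?_) (fun S hS hc => ?_) (fun S => ?_) (fun _ => ?_) (fun S l1 l2 l3 l4 => ?_)
    · simp [ed_symm w v a c]
    · simpa using mul_nonneg hη0 (ed_nonneg w v a c)
    · have h9 : ed w v a c ≠ 0 := fun h10 => h (by simp [h10])
      rcases ed_ne h9 with ⟨rfl, rfl⟩ | ⟨rfl, rfl⟩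
      · exact hxv
      · rw [s.fs.symm]; exact hxv
    · rw [cut_smul]
      have h9 : (w ∈ S ↔ v ∈ S) := by
        by_contra hcon
        have hX : ∃ X, w ∈ X ∧ v ∉ X ∧ Sep X (insert b A) ∧ cut x X = 2 := by
          by_cases hwS : w ∈ S
          · exact ⟨S, hwS, fun hv => hcon ⟨fun _ => hv, fun _ => hwS⟩, hS, hc⟩
          · refine ⟨Sᶜ, by simpa using hwS, ?_, sep_compl.2 hS, by rw [cut_compl s.fs.symm, hc]⟩
            simp only [Finset.mem_compl, not_not]
            by_contra hv
            exact hcon ⟨fun h => absurd h hwS, fun h => absurd h hv⟩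
        obtain ⟨X, x1, x2, ⟨⟨a, x3, x4⟩, e, x5, x6⟩, x7⟩ := hX
        have heD : e ∉ D := by
          rcases Finset.mem_insert.1 x5 with rfl | h
          · exact k3
          · exact k4 e h
        have y1 := s.cutB (X ∪ D) ⟨⟨a, x3, Finset.mem_union_left _ x4⟩, e, x5, by
          rw [Finset.mem_union, not_or]; exact ⟨x6, heD⟩⟩
        have y2 := cut_inter_union s.fs.nonneg X D
        have y3 : ∀ a ∈ A, a ∉ X ∩ D := fun a ha h => k4 a ha (Finset.mem_inter.1 h).2
        have y4 := k7 (X ∩ D) (Finset.mem_inter.2 ⟨x1, k1⟩) y3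
        have y5 : cut x (X ∩ D) = κ := le_antisymm (by linarith) y4
        have y6 := k8 (X ∩ D) (Finset.mem_inter.2 ⟨x1, k1⟩) y3 y5
        have y7 : (X ∩ D).card < D.card := Finset.card_lt_card
          ⟨Finset.inter_subset_right, fun h => x2 (Finset.mem_inter.1 (h hvD)).1⟩
        omega
      rw [ed_cut_of_not h9, mul_zero]
    · rw [cut_smul]
      have := ed_cut_le w v S
      nlinarith [cut_nonneg (ed_nonneg w v) S]
    · rw [deg_smul, ed_deg_left hvw.symm, mul_one]
      exact le_max_right _ _
    · have := k9 S l2 l1 l3 l4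
      linarith

/-- THE EXCHANGE PROPERTY of the fractional coverings (helper31's (E)). -/
theorem exch {G : SimpleGraph V} {A U : Finset V} {b d : V} (h1 : Pi G (insert b A)) (h2 : Pi G (insert d A))
    (q : G.Walk b d) (hq : q.IsPath) (hqU : ∀ u ∈ q.support, u ∈ U)
    (hin : ∀ u ∈ U, u ≠ b → u ≠ d → ¬ Pi G (insert u A)) : Pi G (insert b (insert d A)) := by
  classical
  by_cases hb : b ∈ A
  · rwa [Finset.insert_eq_of_mem (Finset.mem_insert_of_mem hb)]
  by_cases hd : d ∈ A
  · rwa [Finset.insert_eq_of_mem hd]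
  by_cases hbd : b = d
  · subst hbd
    rwa [Finset.insert_eq_of_mem (Finset.mem_insert_self _ _)]
  have hin' : ∀ u ∈ q.support, u ≠ b → u ≠ d → ¬ Pi G (insert u A) := fun u hu => hin u (hqU u hu)
  rcases A.eq_empty_or_nonempty with rfl | hA
  · have hone : ∀ u, Pi G (insert u ∅) := by
      intro u
      refine ⟨fun _ _ => 0, ⟨fun _ _ => rfl, fun _ _ => le_rfl, fun _ _ h => absurd rfl h, fun v => ?_⟩, fun S hS => ?_⟩
      · unfold deg; simp
      · obtain ⟨⟨a, ha, h3⟩, c, hc, h4⟩ := hS
        simp at ha hc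
        subst ha; subst hc
        exact absurd h3 h4
    have hadj : G.Adj b d := by
      cases q with
      | nil => exact absurd rfl hbd
      | @cons _ s1 _ h q1 =>
        by_cases h5 : s1 = d
        · rw [← h5]; exact h
        · exact absurd (hone s1) (hin' s1 (by simp) (G.ne_of_adj h).symm h5)
    refine ⟨(2 : ℝ) • ed b d, ⟨fun u v => ?_, fun u v => ?_, fun u v h => ?_, fun v => ?_⟩, fun S hS => ?_⟩
    · simp [ed_symm b d u v]
    · simpa using ed_nonneg b d u v
    · have h6 : ed b d u v ≠ 0 := fun h7 => h (by simp [h7])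
      rcases ed_ne h6 with ⟨rfl, rfl⟩ | ⟨rfl, rfl⟩
      · exact hadj
      · exact hadj.symm
    · rw [deg_smul]
      by_cases h6 : v = b
      · rw [h6, ed_deg_left hbd]; norm_num
      · by_cases h7 : v = d
        · rw [h7, ed_deg_right hbd]; norm_num
        · rw [ed_deg_ne h6 h7]; norm_num
    · rw [cut_smul, ed_cross, mul_one]
      obtain ⟨⟨a, ha, h3⟩, c, hc, h4⟩ := hS
      simp at ha hc
      rcases ha with rfl | rfl <;> rcases hc with rfl | rfl <;> tauto
  · obtain ⟨θ, x, s⟩ := exists_side (B := insert b A) (T := insert d (insert b A)) (Finset.subset_insert _ _) h1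
    obtain ⟨θ', x', s'⟩ := exists_side (B := insert d A) (T := insert b (insert d A)) (Finset.subset_insert _ _) h2
    have hTT : insert b (insert d A) = insert d (insert b A) := Finset.insert_comm _ _ _
    by_contra hP
    have hlt : θ < 2 := by
      rcases s.le.lt_or_eq with h | h
      · exact h
      · exact absurd ⟨x, s.fs, fun S hS => by rw [← h]; exact s.cutT S (by rw [← hTT]; exact hS)⟩ hP
    have hlt' : θ' < 2 := by
      rcases s'.le.lt_or_eq with h | h
      · exact h
      · exact absurd ⟨x', s'.fs, fun S hS => by rw [← h]; exact s'.cutT S hS⟩ hP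
    rcases le_total θ θ' with h | h
    · rw [hTT] at s'
      exact exch_aux hA hbd hb hd rfl hlt h s s' q hq hin'
    · rw [← hTT] at s
      exact exch_aux hA (Ne.symm hbd) hd hb rfl hlt' h s' s q.reverse hq.reverse (fun u hu k1 k2 =>
        hin' u (by simpa using hu) k2 k1)

end Pool.Agent.Lib.H98SB
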