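import Pool.Agent.Lib.H98SB.E3

/-!
# H98SB, file X1: laminar families, uncrossing of tight cuts
-/

set_option autoImplicit false
set_option linter.unusedSectionVars false

noncomputable section

namespace Pool.Agent.Lib.H98SB

open Filter Topology

variable {V : Type*} [Fintype V] [DecidableEq V]

/-- `S` and `X` cross. -/
def Cr (S X : Finset V) : Prop := (S ∩ X).Nonempty ∧ ¬ S ⊆ X ∧ ¬ X ⊆ S

/-- A family without crossing sets. -/
def Lam (L : Finset (Finset V)) : Prop := ∀ S ∈ L, ∀ X ∈ L, ¬ Cr S X

/-- A laminar family of nonempty subsets of `W` has at most `2|W| - 1` members. -/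
lemma lam_card : ∀ (W : Finset V) (L : Finset (Finset V)), W.Nonempty → (∀ S ∈ L, S ⊆ W ∧ S.Nonempty) → Lam L →
    L.card + 1 ≤ 2 * W.card := by
  classical
  intro W
  induction W using Finset.induction_on with
  | empty => intro L h; exact absurd h (by simp)
  | insert w W hw ih =>
    intro L _ hL hlam
    rcases W.eq_empty_or_nonempty with rfl | hW
    · have : L ⊆ {{w}} := by
        intro S hS
        obtain ⟨h1, h2⟩ := hL S hS
        rw [Finset.mem_singleton]
        rw [insert_empty_eq] at h1
        exact (Finset.subset_singleton_iff.1 h1).resolve_left h2.ne_empty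
      have := Finset.card_le_card this
      simp at this ⊢
      omega
    · set L1 := L.filter (fun S => w ∉ S) with hL1
      set L2 := L.filter (fun S => ¬ w ∉ S) with hL2
      set L2' := L2.image (fun S => S.erase w) with hL2'
      have h1 : L1.card + L2.card = L.card := by
        rw [hL1, hL2]
        exact Finset.card_filter_add_card_filter_not _
      have h2 : L2'.card = L2.card := by
        refine Finset.card_image_of_injOn ?_
        intro S hS X hX h
        simp only [hL2, Finset.coe_filter, Set.mem_setOf_eq, not_not] at hS hX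
        have h' : S.erase w = X.erase w := h
        rw [← Finset.insert_erase hS.2, ← Finset.insert_erase hX.2, h']
      have h3 : (L1 ∩ L2').card ≤ 1 := by
        rw [Finset.card_le_one]
        have key : ∀ S S', S ∈ L1 ∩ L2' → S' ∈ L1 ∩ L2' → insert w S ⊆ insert w S' → S = S' := by
          intro S S' hS hS' hsub
          rw [Finset.mem_inter] at hS hS'
          obtain ⟨hS1, hS2⟩ := hS
          obtain ⟨hS1', hS2'⟩ := hS'
          rw [hL1, Finset.mem_filter] at hS1 hS1'
          rw [hL2', Finset.mem_image] at hS2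
          obtain ⟨T, hT, hTS⟩ := hS2
          rw [hL2, Finset.mem_filter, not_not] at hT
          have hT' : T = insert w S := by rw [← hTS, Finset.insert_erase hT.2]
          have hSS : S ⊆ S' := by
            intro a ha
            have := hsub (Finset.mem_insert_of_mem ha)
            rcases Finset.mem_insert.1 this with rfl | h
            · exact absurd ha hS1.2
            · exact h
          refine Finset.Subset.antisymm hSS ?_
          have h4 := hlam T hT.1 S' hS1'.1
          unfold Cr at h4
          push Not at h4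
          have h5 : (T ∩ S').Nonempty := by
            obtain ⟨a, ha⟩ := (hL S hS1.1).2
            exact ⟨a, Finset.mem_inter.2 ⟨by rw [hT']; exact Finset.mem_insert_of_mem ha, hSS ha⟩⟩
          have h6 := h4 h5 (fun h => hS1'.2 (h hT.2))
          intro a ha
          have := h6 ha
          rw [hT'] at this
          rcases Finset.mem_insert.1 this with rfl | h
          · exact absurd ha hS1'.2
          · exact h
        intro S hS S' hS'
        have e1 : insert w S ∈ L := by
          rw [Finset.mem_inter] at hS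
          obtain ⟨T, hT, hTS⟩ := Finset.mem_image.1 hS.2
          rw [hL2, Finset.mem_filter, not_not] at hT
          rw [← hTS, Finset.insert_erase hT.2]
          exact hT.1
        have e2 : insert w S' ∈ L := by
          rw [Finset.mem_inter] at hS'
          obtain ⟨T, hT, hTS⟩ := Finset.mem_image.1 hS'.2
          rw [hL2, Finset.mem_filter, not_not] at hT
          rw [← hTS, Finset.insert_erase hT.2]
          exact hT.1
        have h4 := hlam _ e1 _ e2
        unfold Cr at h4
        by_cases h5 : insert w S ⊆ insert w S'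
        · exact key S S' hS hS' h5
        · have h6 : insert w S' ⊆ insert w S := by
            by_contra h6
            exact h4 ⟨⟨w, by simp⟩, h5, h6⟩
          exact (key S' S hS' hS h6).symm
      have h4 := Finset.card_union_add_card_inter L1 L2'
      have h5 : (L1 ∪ L2').card ≤ ((L1 ∪ L2').erase ∅).card + 1 := by
        have := Finset.pred_card_le_card_erase (s := L1 ∪ L2') (a := ∅)
        omega
      have h6 : ∀ S ∈ (L1 ∪ L2').erase ∅, ∃ T ∈ L, S = T.erase w := by
        intro S hS
        rw [Finset.mem_erase, Finset.mem_union] at hS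
        rcases hS.2 with h | h
        · rw [hL1, Finset.mem_filter] at h
          exact ⟨S, h.1, (Finset.erase_eq_of_notMem h.2).symm⟩
        · obtain ⟨T, hT, hTS⟩ := Finset.mem_image.1 h
          rw [hL2, Finset.mem_filter] at hT
          exact ⟨T, hT.1, hTS.symm⟩
      have h7 := ih ((L1 ∪ L2').erase ∅) hW (fun S hS => by
        obtain ⟨T, hT, rfl⟩ := h6 S hS
        refine ⟨fun a ha => ?_, Finset.nonempty_iff_ne_empty.2 (Finset.mem_erase.1 hS).1⟩
        rw [Finset.mem_erase] at ha
        exact (Finset.mem_insert.1 ((hL T hT).1 ha.2)).resolve_left ha.1) (fun S hS X hX hcr => by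
        obtain ⟨T, hT, rfl⟩ := h6 S hS
        obtain ⟨T', hT', rfl⟩ := h6 X hX
        obtain ⟨⟨a, ha⟩, c1, c2⟩ := hcr
        rw [Finset.mem_inter, Finset.mem_erase, Finset.mem_erase] at ha
        exact hlam T hT T' hT' ⟨⟨a, Finset.mem_inter.2 ⟨ha.1.2, ha.2.2⟩⟩,
          fun h => c1 (Finset.erase_subset_erase _ h), fun h => c2 (Finset.erase_subset_erase _ h)⟩)
      rw [Finset.card_insert_of_notMem hw]
      omega

/-- The weight between `X \ Y` and `Y \ X`. -/
def crw (x : V → V → ℝ) (X Y : Finset V) : ℝ :=
  ∑ u, ∑ w, if (u ∈ X ∧ u ∉ Y ∧ w ∈ Y ∧ w ∉ X) ∨ (u ∈ Y ∧ u ∉ X ∧ w ∈ X ∧ w ∉ Y) then x u w else 0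

lemma cut_modular (x : V → V → ℝ) (X Y : Finset V) :
    cut x (X ∩ Y) + cut x (X ∪ Y) + crw x X Y = cut x X + cut x Y := by
  simp only [cut, crw, ← Finset.sum_add_distrib]
  refine Finset.sum_congr rfl fun u _ => Finset.sum_congr rfl fun w _ => ?_
  simp only [Finset.mem_inter, Finset.mem_union]
  by_cases h1 : u ∈ X <;> by_cases h2 : u ∈ Y <;> by_cases h3 : w ∈ X <;> by_cases h4 : w ∈ Y <;>
    simp [h1, h2, h3, h4]

lemma crw_zero {x z : V → V → ℝ} (hx : ∀ u v, 0 ≤ x u v) (hz : ∀ u v, z u v ≠ 0 → x u v ≠ 0) {X Y : Finset V}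
    (h : crw x X Y ≤ 0) : crw z X Y = 0 := by
  have h0 : ∀ u w, ((u ∈ X ∧ u ∉ Y ∧ w ∈ Y ∧ w ∉ X) ∨ (u ∈ Y ∧ u ∉ X ∧ w ∈ X ∧ w ∉ Y)) → x u w = 0 := by
    intro u w huw
    by_contra hne
    have hpos : 0 < x u w := lt_of_le_of_ne (hx u w) (Ne.symm hne)
    have h1 : ∀ a b, 0 ≤ (if (a ∈ X ∧ a ∉ Y ∧ b ∈ Y ∧ b ∉ X) ∨ (a ∈ Y ∧ a ∉ X ∧ b ∈ X ∧ b ∉ Y) then x a b else 0) := by
      intro a b
      split_ifs
      · exact hx a b
      · exact le_rfl
    have h2 := Finset.single_le_sum (f := fun a => ∑ b, if (a ∈ X ∧ a ∉ Y ∧ b ∈ Y ∧ b ∉ X) ∨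
      (a ∈ Y ∧ a ∉ X ∧ b ∈ X ∧ b ∉ Y) then x a b else 0) (fun a _ => Finset.sum_nonneg fun b _ => h1 a b)
      (Finset.mem_univ u)
    have h3 := Finset.single_le_sum (f := fun b => if (u ∈ X ∧ u ∉ Y ∧ b ∈ Y ∧ b ∉ X) ∨
      (u ∈ Y ∧ u ∉ X ∧ b ∈ X ∧ b ∉ Y) then x u b else 0) (fun b _ => h1 u b) (Finset.mem_univ w)
    simp only [if_pos huw] at h3
    unfold crw at h
    linarith
  unfold crw
  refine Finset.sum_eq_zero fun u _ => Finset.sum_eq_zero fun w _ => ?_
  split_ifs with h1
  · by_contra h2
    exact hz u w h2 (h0 u w h1)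
  · rfl

/-- Uncrossing: if `z` is zero on the cuts of a maximal laminar family of tight sets, then on all tight sets. -/
lemma uncross {x z : V → V → ℝ} (hx : ∀ u v, 0 ≤ x u v) (hz : ∀ u v, z u v ≠ 0 → x u v ≠ 0) {r : V}
    (hcut : ∀ S : Finset V, S.Nonempty → S ≠ Finset.univ → 2 ≤ cut x S) {L : Finset (Finset V)}
    (hL : ∀ S ∈ L, S.Nonempty ∧ r ∉ S ∧ cut x S = 2)
    (hlam : Lam L) (hmax : ∀ S : Finset V, S.Nonempty → r ∉ S → cut x S = 2 → (∀ X ∈ L, ¬ Cr S X) → S ∈ L)
    (h0 : ∀ S ∈ L, cut z S = 0) :
    ∀ S : Finset V, S.Nonempty → r ∉ S → cut x S = 2 → cut z S = 0 := by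
  classical
  have key : ∀ (k : ℕ) (S : Finset V), (L.filter (fun X => Cr S X)).card = k → S.Nonempty → r ∉ S → cut x S = 2 →
      cut z S = 0 := by
    intro k
    induction k using Nat.strong_induction_on with
    | _ k ih =>
      intro S hk hS hr h2
      by_cases hex : ∃ X ∈ L, Cr S X
      · obtain ⟨X, hX, hc1, hc2, hc3⟩ := hex
        obtain ⟨hX1, hX2, hX3⟩ := hL X hX
        have hrU : r ∉ S ∪ X := by
          rw [Finset.mem_union, not_or]; exact ⟨hr, hX2⟩
        have hrI : r ∉ S ∩ X := fun h => hr (Finset.mem_inter.1 h).1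
        have hU : (S ∪ X).Nonempty := hS.mono Finset.subset_union_left
        have k1 := hcut (S ∩ X) hc1 (fun h => hrI (h ▸ Finset.mem_univ r))
        have k2 := hcut (S ∪ X) hU (fun h => hrU (h ▸ Finset.mem_univ r))
        have k3 := cut_modular x S X
        have k4 : 0 ≤ crw x S X := by
          unfold crw
          refine Finset.sum_nonneg fun u _ => Finset.sum_nonneg fun w _ => ?_
          split_ifs
          · exact hx u w
          · exact le_rfl
        have k5 : cut x (S ∩ X) = 2 := by linarith
        have k6 : cut x (S ∪ X) = 2 := by linarith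
        have k7 : crw z S X = 0 := crw_zero hx hz (by linarith)
        have k8 := cut_modular z S X
        have hmem : X ∈ L.filter (fun Y => Cr S Y) := Finset.mem_filter.2 ⟨hX, hc1, hc2, hc3⟩
        have l1 : (L.filter (fun Y => Cr (S ∩ X) Y)).card < k := by
          rw [← hk]
          refine Finset.card_lt_card ⟨fun Y hY => ?_, fun h => ?_⟩
          · rw [Finset.mem_filter] at hY ⊢
            obtain ⟨hY, d1, d2, d3⟩ := hY
            refine ⟨hY, ?_⟩
            have hn := hlam X hX Y hY
            unfold Cr at hn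
            push Not at hn
            obtain ⟨a, ha⟩ := d1
            rw [Finset.mem_inter, Finset.mem_inter] at ha
            have hXY : ¬ X ⊆ Y := fun h => d2 (Finset.inter_subset_right.trans h)
            have hYX : Y ⊆ X := hn ⟨a, Finset.mem_inter.2 ⟨ha.1.2, ha.2⟩⟩ hXY
            refine ⟨⟨a, Finset.mem_inter.2 ⟨ha.1.1, ha.2⟩⟩, fun h => d2 (Finset.inter_subset_left.trans h), fun h => d3 ?_⟩
            exact Finset.subset_inter h hYX
          · have := h hmem
            rw [Finset.mem_filter] at this
            exact this.2.2.1 Finset.inter_subset_right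
        have l2 : (L.filter (fun Y => Cr (S ∪ X) Y)).card < k := by
          rw [← hk]
          refine Finset.card_lt_card ⟨fun Y hY => ?_, fun h => ?_⟩
          · rw [Finset.mem_filter] at hY ⊢
            obtain ⟨hY, d1, d2, d3⟩ := hY
            refine ⟨hY, ?_⟩
            have hn := hlam X hX Y hY
            unfold Cr at hn
            push Not at hn
            have hYX : ¬ Y ⊆ X := fun h => d3 (h.trans Finset.subset_union_right)
            have hYS : ¬ Y ⊆ S := fun h => d3 (h.trans Finset.subset_union_left)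
            by_cases hd : (X ∩ Y).Nonempty
            · have hXY : X ⊆ Y := by
                by_contra h
                exact hYX (hn hd h)
              obtain ⟨a, ha⟩ := hc1
              rw [Finset.mem_inter] at ha
              refine ⟨⟨a, Finset.mem_inter.2 ⟨ha.1, hXY ha.2⟩⟩, fun h => d2 (Finset.union_subset h hXY), hYS⟩
            · obtain ⟨a, ha⟩ := d1
              rw [Finset.mem_inter, Finset.mem_union] at ha
              have haX : a ∉ X := fun h => hd ⟨a, Finset.mem_inter.2 ⟨h, ha.2⟩⟩
              refine ⟨⟨a, Finset.mem_inter.2 ⟨ha.1.resolve_right haX, ha.2⟩⟩, fun h => ?_, hYS⟩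
              obtain ⟨c, hc⟩ := hc1
              rw [Finset.mem_inter] at hc
              exact hd ⟨c, Finset.mem_inter.2 ⟨hc.2, h hc.1⟩⟩
          · have := h hmem
            rw [Finset.mem_filter] at this
            exact this.2.2.2 Finset.subset_union_right
        have m1 := ih _ l1 (S ∩ X) rfl hc1 hrI k5
        have m2 := ih _ l2 (S ∪ X) rfl hU hrU k6
        have m3 := h0 X hX
        linarith
      · push Not at hex
        exact h0 S (hmax S hS hr h2 hex)
  intro S hS hr h2
  exact key _ S rfl hS hr h2

end Pool.Agent.Lib.H98SB
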