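import Pool.Agent.Lib.H98SB.X1

/-!
# H98SB, file X2: extreme points of the subtour polytope have at most `2n - 3` positive edges
-/

set_option autoImplicit false
set_option linter.unusedSectionVars false

noncomputable section

namespace Pool.Agent.Lib.H98SB

open Filter Topology

variable {V : Type*} [Fintype V] [DecidableEq V]

/-- The subtour polytope of `G`. -/
def Fe (G : SimpleGraph V) : Set (V → V → ℝ) :=
  {x | Fs G x ∧ (∀ v, deg x v = 2) ∧ ∀ S : Finset V, S.Nonempty → S ≠ Finset.univ → 2 ≤ cut x S}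

lemma compact_fe (G : SimpleGraph V) : IsCompact (Fe G) := by
  have hc : IsClosed (Fe G) := by
    have e : Fe G = {x | Fs G x} ∩ ((⋂ v, {x | deg x v = 2}) ∩
        (⋂ S : Finset V, ⋂ (_ : S.Nonempty), ⋂ (_ : S ≠ Finset.univ), {x | 2 ≤ cut x S})) := by
      ext x
      simp [Fe]
    rw [e]
    refine (closed_fs G).inter ((isClosed_iInter fun v => isClosed_eq (cont_deg v) continuous_const).inter
      (isClosed_iInter fun S => isClosed_iInter fun _ => isClosed_iInter fun _ =>
        isClosed_le continuous_const (cont_cut S)))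
  refine (isCompact_univ_pi (X := fun _ : V => V → ℝ) (s := fun _ => Set.univ.pi fun _ => Set.Icc (0 : ℝ) 2)
    fun _ => isCompact_univ_pi fun _ => isCompact_Icc).of_isClosed_subset hc ?_
  intro x hx u _ v _
  exact ⟨hx.1.nonneg u v, hx.1.le_two u v⟩

/-- A direction along all tight constraints is zero at an extreme point. -/
lemma ext_zero {G : SimpleGraph V} {x z : V → V → ℝ} (hx : x ∈ (Fe G).extremePoints ℝ)
    (hs : ∀ u v, z u v = z v u) (hz : ∀ u v, z u v ≠ 0 → x u v ≠ 0) (hd : ∀ v, deg z v = 0)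
    (hc : ∀ S : Finset V, S.Nonempty → S ≠ Finset.univ → cut x S = 2 → cut z S = 0) : z = 0 := by
  rw [mem_extremePoints_iff_left] at hx
  obtain ⟨⟨hF, hdx, hcx⟩, hext⟩ := hx
  have aux : ∀ y : V → V → ℝ, (∀ u v, y u v = y v u) → (∀ u v, y u v ≠ 0 → x u v ≠ 0) → (∀ v, deg y v = 0) →
      (∀ S : Finset V, S.Nonempty → S ≠ Finset.univ → cut x S = 2 → cut y S = 0) →
      ∀ᶠ ε in 𝓝[>] (0 : ℝ), x + ε • y ∈ Fe G := by
    intro y hs hz hd hc
    have e1 : ∀ᶠ ε in 𝓝[>] (0 : ℝ), Fs G (x + ε • y) := by
      refine ev_fs hF hs (fun u v h => hF.supp u v (hz u v h)) (fun u v h => ?_) (fun v _ => (hd v).le)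
      have : y u v = 0 := by
        by_contra h'
        exact hz u v h' h
      exact this.ge
    have e2 : ∀ᶠ ε in 𝓝[>] (0 : ℝ), ∀ S : Finset V, (S.Nonempty ∧ S ≠ Finset.univ) → 2 ≤ cut (x + ε • y) S :=
      ev_cut (fun _ => 2) (fun S => S.Nonempty ∧ S ≠ Finset.univ) (fun S h => hcx S h.1 h.2)
        (fun S h h2 => (hc S h.1 h.2 h2).ge)
    filter_upwards [e1, e2] with ε h1 h2
    refine ⟨h1, fun v => ?_, fun S h3 h4 => h2 S ⟨h3, h4⟩⟩
    rw [deg_add, deg_smul, hdx, hd]
    ring
  have e1 := aux z hs hz hd hc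
  have e2 := aux ((-1 : ℝ) • z) (fun u v => by simp [hs u v]) (fun u v h => hz u v (fun h' => h (by simp [h'])))
    (fun v => by rw [deg_smul, hd]; ring) (fun S h1 h2 h3 => by rw [cut_smul, hc S h1 h2 h3]; ring)
  have e3 : ∀ᶠ ε in 𝓝[>] (0 : ℝ), 0 < ε := self_mem_nhdsWithin
  obtain ⟨ε, ⟨h1, h2⟩, hε⟩ := ((e1.and e2).and e3).exists
  have h3 := hext _ h1 _ h2 ⟨1 / 2, 1 / 2, by norm_num, by norm_num, by norm_num, by
    funext u v
    simp
    ring⟩
  funext u v
  have h4 := congrFun (congrFun h3 u) v
  simp at h4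
  exact h4.resolve_left hε.ne'

open Classical in
/-- The edges with positive weight. -/
def sup (x : V → V → ℝ) : Finset (Sym2 V) := Finset.univ.filter fun e => ∃ u v, e = s(u, v) ∧ x u v ≠ 0

/-- Extreme points have few positive edges. -/
theorem ext_card {G : SimpleGraph V} (h3 : 3 ≤ Fintype.card V) {x : V → V → ℝ} (hx : x ∈ (Fe G).extremePoints ℝ) :
    (sup x).card + 3 ≤ 2 * Fintype.card V := by
  classical
  by_contra hcon
  obtain ⟨r⟩ : Nonempty V := Fintype.card_pos_iff.1 (by omega)
  have hx' := hx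
  obtain ⟨⟨hF, hdx, hcx⟩, -⟩ := hx
  -- the family of the tight sets which avoid `r`
  set TT : Finset (Finset V) := Finset.univ.filter fun S => S.Nonempty ∧ r ∉ S ∧ cut x S = 2 with hTT
  obtain ⟨L, hLm, hLmax⟩ := Finset.exists_max_image (TT.powerset.filter fun L => Lam L) (fun L => L.card)
    ⟨∅, by simp [Lam]⟩
  rw [Finset.mem_filter, Finset.mem_powerset] at hLm
  obtain ⟨hLT, hlam⟩ := hLm
  have hL : ∀ S ∈ L, S.Nonempty ∧ r ∉ S ∧ cut x S = 2 := fun S hS => by
    have := hLT hS
    rw [hTT, Finset.mem_filter] at this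
    exact this.2
  have hmax : ∀ S : Finset V, S.Nonempty → r ∉ S → cut x S = 2 → (∀ X ∈ L, ¬ Cr S X) → S ∈ L := by
    intro S h1 h2 h4 h5
    by_contra hS
    have h6 := hLmax (insert S L) (by
      rw [Finset.mem_filter, Finset.mem_powerset]
      refine ⟨Finset.insert_subset (by rw [hTT, Finset.mem_filter]; exact ⟨Finset.mem_univ _, h1, h2, h4⟩) hLT, ?_⟩
      intro A hA B hB hcr
      rw [Finset.mem_insert] at hA hB
      rcases hA with rfl | hA <;> rcases hB with rfl | hB
      · exact hcr.2.1 subset_rfl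
      · exact h5 B hB hcr
      · refine h5 A hA ⟨?_, hcr.2.2, hcr.2.1⟩
        rw [Finset.inter_comm]
        exact hcr.1
      · exact hlam A hA B hB hcr)
    rw [Finset.card_insert_of_notMem hS] at h6
    omega
  have hcard : L.card + 1 ≤ 2 * (Finset.univ.erase r).card := by
    refine lam_card (Finset.univ.erase r) L ?_ (fun S hS => ⟨fun a ha => ?_, (hL S hS).1⟩) hlam
    · rw [← Finset.card_pos, Finset.card_erase_of_mem (Finset.mem_univ _), Finset.card_univ]
      omega
    · refine Finset.mem_erase.2 ⟨fun h => ?_, Finset.mem_univ _⟩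
      rw [h] at ha
      exact (hL S hS).2.1 ha
  rw [Finset.card_erase_of_mem (Finset.mem_univ _), Finset.card_univ] at hcard
  -- the linear map
  let F : (sup x → ℝ) → V → V → ℝ := fun y u v => if h : s(u, v) ∈ sup x then y ⟨s(u, v), h⟩ else 0
  let Φ : (sup x → ℝ) →ₗ[ℝ] (L → ℝ) :=
    { toFun := fun y S => cut (F y) S.1
      map_add' := fun y y' => by
        funext S
        have : F (y + y') = F y + F y' := by
          funext u v
          by_cases h : s(u, v) ∈ sup x
          · simp [F, h]
          · simp [F, h]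
        show cut (F (y + y')) S.1 = cut (F y) S.1 + cut (F y') S.1
        rw [this, cut_add]
      map_smul' := fun c y => by
        funext S
        have : F (c • y) = c • F y := by
          funext u v
          by_cases h : s(u, v) ∈ sup x
          · simp [F, h]
          · simp [F, h]
        show cut (F (c • y)) S.1 = c * cut (F y) S.1
        rw [this, cut_smul] }
  have hker : LinearMap.ker Φ ≠ ⊥ := by
    refine LinearMap.ker_ne_bot_of_finrank_lt ?_
    rw [Module.finrank_fintype_fun_eq_card, Module.finrank_fintype_fun_eq_card, Fintype.card_coe, Fintype.card_coe]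
    omega
  obtain ⟨y, hy, hy0⟩ := Submodule.exists_mem_ne_zero_of_ne_bot hker
  have hΦ : ∀ S ∈ L, cut (F y) S = 0 := fun S hS => congrFun (LinearMap.mem_ker.1 hy) ⟨S, hS⟩
  have hFs : ∀ u v, F y u v = F y v u := by
    intro u v
    have : s(u, v) = s(v, u) := Sym2.eq_swap
    by_cases h : s(u, v) ∈ sup x
    · have h' : s(v, u) ∈ sup x := this ▸ h
      simp only [F, dif_pos h, dif_pos h']
      congr 1
      exact Subtype.ext this
    · have h' : s(v, u) ∉ sup x := this ▸ h
      simp only [F, dif_neg h, dif_neg h']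
  have hFz : ∀ u v, F y u v ≠ 0 → x u v ≠ 0 := by
    intro u v h
    by_cases h' : s(u, v) ∈ sup x
    · unfold sup at h'
      rw [Finset.mem_filter] at h'
      obtain ⟨-, a, b, hab, h0⟩ := h'
      rw [Sym2.eq_iff] at hab
      rcases hab with ⟨rfl, rfl⟩ | ⟨rfl, rfl⟩
      · exact h0
      · rw [hF.symm]; exact h0
    · exact absurd (by simp only [F, dif_neg h']) h
  have hun := uncross hF.nonneg hFz (r := r) hcx hL hlam hmax hΦ
  have hFd : ∀ u, F y u u = 0 := by
    intro u
    by_contra h
    exact hFz u u h (hF.diag u)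
  have hall : ∀ S : Finset V, S.Nonempty → S ≠ Finset.univ → cut x S = 2 → cut (F y) S = 0 := by
    intro S h1 h2 h4
    by_cases hr : r ∈ S
    · have h5 : Sᶜ.Nonempty := by
        rw [Finset.nonempty_iff_ne_empty]
        intro h
        exact h2 ((Finset.compl_eq_empty_iff S).1 h)
      have := hun Sᶜ h5 (by simpa using hr) (by rw [cut_compl hF.symm, h4])
      rwa [cut_compl hFs] at this
    · exact hun S h1 hr h4
  have hz := ext_zero hx' hFs hFz (fun v => by
    rw [← cut_singleton hFd v]
    refine hall {v} (Finset.singleton_nonempty v) (fun h => ?_) (by rw [cut_singleton hF.diag, hdx])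
    have := congrArg Finset.card h
    rw [Finset.card_singleton, Finset.card_univ] at this
    omega) hall
  refine hy0 (funext fun e => ?_)
  obtain ⟨e, he⟩ := e
  induction e using Sym2.ind with
  | _ u v =>
    have := congrFun (congrFun hz u) v
    simp only [F, dif_pos he] at this
    exact this

end Pool.Agent.Lib.H98SB
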