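import Pool.Agent.Lib.H98SB.X2

/-!
# H98SB, file X3: a fractional Hamiltonian cycle on exactly `2n - 3` edges
-/

set_option autoImplicit false
set_option linter.unusedSectionVars false

noncomputable section

namespace Pool.Agent.Lib.H98SB

variable {V : Type*} [Fintype V] [DecidableEq V]

lemma cut_eq (x : V → V → ℝ) (S : Finset V) : cut x S = ∑ u ∈ S, ∑ v ∈ Sᶜ, x u v := by
  unfold cut
  have h1 : ∀ u, (∑ w, if u ∈ S ∧ w ∉ S then x u w else 0) = if u ∈ S then ∑ v ∈ Sᶜ, x u v else 0 := by
    intro u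
    by_cases hu : u ∈ S
    · rw [if_pos hu, ← Finset.sum_subset (Finset.subset_univ Sᶜ)]
      · refine Finset.sum_congr rfl fun w hw => ?_
        rw [if_pos ⟨hu, by simpa using hw⟩]
      · intro w _ hw
        rw [if_neg]
        rintro ⟨-, h⟩
        exact hw (by simpa using h)
    · rw [if_neg hu]
      exact Finset.sum_eq_zero fun w _ => by rw [if_neg fun h => hu h.1]
  rw [Finset.sum_congr rfl fun u _ => h1 u, ← Finset.sum_subset (Finset.subset_univ S)]
  · exact Finset.sum_congr rfl fun u hu => by rw [if_pos hu]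
  · intro u _ hu
    rw [if_neg hu]

/-- A fractional Hamiltonian cycle. -/
structure FH (G : SimpleGraph V) (x : V → V → ℝ) : Prop where
  symm : ∀ u v, x u v = x v u
  nonneg : ∀ u v, 0 ≤ x u v
  supp : ∀ u v, ¬ G.Adj u v → x u v = 0
  deg : ∀ v, ∑ w, x v w = 2
  cut : ∀ S : Finset V, S.Nonempty → S ≠ Finset.univ → 2 ≤ ∑ u ∈ S, ∑ v ∈ Sᶜ, x u v

lemma fh_iff {G : SimpleGraph V} {x : V → V → ℝ} : FH G x ↔ x ∈ Fe G := by
  constructor
  · intro h
    refine ⟨⟨h.symm, h.nonneg, fun u v h0 => ?_, fun v => (h.deg v).le⟩, h.deg, fun S h1 h2 => ?_⟩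
    · by_contra hG
      exact h0 (h.supp u v hG)
    · rw [cut_eq]
      exact h.cut S h1 h2
  · rintro ⟨h1, h2, h3⟩
    refine ⟨h1.symm, h1.nonneg, fun u v hG => ?_, h2, fun S h4 h5 => ?_⟩
    · by_contra h0
      exact hG (h1.supp u v h0)
    · rw [← cut_eq]
      exact h3 S h4 h5

/-- MAIN LEMMA: a fractional Hamiltonian cycle can be put on exactly `2n - 3` edges. -/
theorem trim {G : SimpleGraph V} (h3 : 3 ≤ Fintype.card V) {x : V → V → ℝ} (hx : FH G x)
    (hc : 2 * Fintype.card V ≤ G.edgeSet.ncard + 3) :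
    ∃ (H : SimpleGraph V) (y : V → V → ℝ), H ≤ G ∧ H.edgeSet.ncard = 2 * Fintype.card V - 3 ∧ FH H y := by
  classical
  obtain ⟨y, hy⟩ := (compact_fe G).extremePoints_nonempty ⟨x, fh_iff.1 hx⟩
  have h1 := ext_card h3 hy
  have hyF := fh_iff.2 hy.1
  have hsub : sup y ⊆ G.edgeFinset := by
    intro e he
    unfold sup at he
    rw [Finset.mem_filter] at he
    obtain ⟨-, u, v, rfl, h0⟩ := he
    rw [SimpleGraph.mem_edgeFinset, SimpleGraph.mem_edgeSet]
    by_contra hG
    exact h0 (hyF.supp u v hG)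
  have hcard : G.edgeFinset.card = G.edgeSet.ncard := by
    rw [← SimpleGraph.coe_edgeFinset, Set.ncard_coe_finset]
  obtain ⟨E, hE1, hE2, hE3⟩ := Finset.exists_subsuperset_card_eq (n := 2 * Fintype.card V - 3) hsub (by omega)
    (by rw [hcard]; omega)
  refine ⟨SimpleGraph.fromEdgeSet (E : Set (Sym2 V)), y, ?_, ?_, ?_⟩
  · intro u v h
    rw [SimpleGraph.fromEdgeSet_adj] at h
    have := hE2 (Finset.mem_coe.1 h.1)
    rwa [SimpleGraph.mem_edgeFinset, SimpleGraph.mem_edgeSet] at this
  · rw [SimpleGraph.edgeSet_fromEdgeSet]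
    have : (E : Set (Sym2 V)) \ Sym2.diagSet = (E : Set (Sym2 V)) := by
      ext e
      simp only [Set.mem_sdiff, Finset.mem_coe]
      refine ⟨fun h => h.1, fun h => ⟨h, fun h' => ?_⟩⟩
      have := hE2 h
      rw [SimpleGraph.mem_edgeFinset] at this
      exact G.not_isDiag_of_mem_edgeSet this (by simpa using h')
    rw [this, Set.ncard_coe_finset, hE3]
  · refine ⟨hyF.symm, hyF.nonneg, fun u v h => ?_, hyF.deg, hyF.cut⟩
    by_contra h0
    refine h ?_
    rw [SimpleGraph.fromEdgeSet_adj]
    refine ⟨Finset.mem_coe.2 (hE1 ?_), fun e => ?_⟩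
    · unfold sup
      rw [Finset.mem_filter]
      exact ⟨Finset.mem_univ _, u, v, rfl, h0⟩
    · subst e
      exact h0 (hyF.supp u u (G.loopless.irrefl u))

/-- A graph with a fractional Hamiltonian cycle is connected. -/
theorem FH.conn {G : SimpleGraph V} (h3 : 3 ≤ Fintype.card V) {x : V → V → ℝ} (hx : FH G x) : G.Connected := by
  classical
  have : Nonempty V := Fintype.card_pos_iff.1 (by omega)
  refine SimpleGraph.Connected.mk fun u w => ?_
  by_contra hcon
  have h1 := hx.cut (Finset.univ.filter fun a => G.Reachable u a) ⟨u, by simp⟩ (fun h => by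
    have := Finset.mem_univ w
    rw [← h, Finset.mem_filter] at this
    exact hcon this.2)
  have h2 : ∑ a ∈ Finset.univ.filter (fun a => G.Reachable u a),
      ∑ b ∈ (Finset.univ.filter (fun a => G.Reachable u a))ᶜ, x a b = 0 := by
    refine Finset.sum_eq_zero fun a ha => Finset.sum_eq_zero fun b hb => hx.supp a b fun hab => ?_
    rw [Finset.mem_filter] at ha
    rw [Finset.mem_compl, Finset.mem_filter] at hb
    exact hb ⟨Finset.mem_univ _, ha.2.trans hab.reachable⟩
  linarith

/-- A graph with a fractional Hamiltonian cycle stays connected when one vertex is removed. -/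
theorem FH.conn' {G : SimpleGraph V} (h3 : 3 ≤ Fintype.card V) {x : V → V → ℝ} (hx : FH G x) (v : V) :
    (G.induce {w | w ≠ v}).Connected := by
  classical
  have hne : ∃ w, w ≠ v := by
    by_contra hcon
    push Not at hcon
    have : Fintype.card V ≤ 1 := Fintype.card_le_one_iff.2 fun a b => by rw [hcon a, hcon b]
    omega
  obtain ⟨w0, hw0⟩ := hne
  have : Nonempty {w | w ≠ v} := ⟨⟨w0, hw0⟩⟩
  refine SimpleGraph.Connected.mk fun u w => ?_
  by_contra hcon
  obtain ⟨u, hu⟩ := u
  obtain ⟨w, hw⟩ := w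
  set K := G.induce {w | w ≠ v} with hK
  set S : Finset V := Finset.univ.filter fun a => ∃ h : a ≠ v, K.Reachable ⟨u, hu⟩ ⟨a, h⟩ with hS
  set S' : Finset V := Finset.univ.filter fun a => a ≠ v ∧ a ∉ S with hS'
  have huS : u ∈ S := by
    rw [hS, Finset.mem_filter]
    exact ⟨Finset.mem_univ _, hu, SimpleGraph.Reachable.refl _⟩
  have hvS : v ∉ S := fun h => by
    rw [hS, Finset.mem_filter] at h
    exact h.2.1 rfl
  have hwS : w ∉ S := fun h => by
    rw [hS, Finset.mem_filter] at h
    exact hcon h.2.2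
  have hwS' : w ∈ S' := by
    rw [hS', Finset.mem_filter]
    exact ⟨Finset.mem_univ _, hw, hwS⟩
  have hvS' : v ∉ S' := fun h => by
    rw [hS', Finset.mem_filter] at h
    exact h.2.1 rfl
  have hno : ∀ a ∈ S, ∀ b ∈ S', x a b = 0 := by
    intro a ha b hb
    refine hx.supp a b fun hab => ?_
    rw [hS, Finset.mem_filter] at ha
    obtain ⟨-, hav, har⟩ := ha
    rw [hS', Finset.mem_filter] at hb
    refine hb.2.2 ?_
    rw [hS, Finset.mem_filter]
    refine ⟨Finset.mem_univ _, hb.2.1, har.trans (SimpleGraph.Adj.reachable ?_)⟩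
    exact hab
  have k1 := hx.cut S ⟨u, huS⟩ (fun h => hvS (h ▸ Finset.mem_univ v))
  have k2 := hx.cut S' ⟨w, hwS'⟩ (fun h => hvS' (h ▸ Finset.mem_univ v))
  have e1 : ∑ a ∈ S, ∑ b ∈ Sᶜ, x a b = ∑ a ∈ S, x a v := by
    refine Finset.sum_congr rfl fun a ha => ?_
    refine Finset.sum_eq_single v (fun b hb hbv => ?_) (fun h => absurd (by simpa using hvS) h)
    refine hno a ha b ?_
    rw [hS', Finset.mem_filter]
    exact ⟨Finset.mem_univ _, hbv, by simpa using hb⟩
  have e2 : ∑ a ∈ S', ∑ b ∈ S'ᶜ, x a b = ∑ a ∈ S', x a v := by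
    refine Finset.sum_congr rfl fun a ha => ?_
    refine Finset.sum_eq_single v (fun b hb hbv => ?_) (fun h => absurd (by simpa using hvS') h)
    have hb' : b ∈ S := by
      by_contra hbS
      rw [Finset.mem_compl] at hb
      exact hb (by rw [hS', Finset.mem_filter]; exact ⟨Finset.mem_univ _, hbv, hbS⟩)
    rw [hx.symm]
    exact hno b hb' a ha
  have hdis : Disjoint S S' := by
    rw [Finset.disjoint_left]
    intro a ha ha'
    rw [hS', Finset.mem_filter] at ha'
    exact ha'.2.2 ha
  have k3 : ∑ a ∈ S, x a v + ∑ a ∈ S', x a v ≤ 2 := by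
    rw [← Finset.sum_union hdis, ← hx.deg v]
    rw [Finset.sum_congr rfl fun a _ => hx.symm a v]
    exact Finset.sum_le_sum_of_subset_of_nonneg (Finset.subset_univ _) fun a _ _ => hx.nonneg v a
  linarith

/-- A connected 2-regular graph carries the fractional Hamiltonian cycle of its edges. -/
theorem fh_of_cycle {F : SimpleGraph V} (hc : F.Connected) (h2 : ∀ v, (F.neighborSet v).ncard = 2) :
    ∃ x, FH F x := by
  classical
  refine ⟨fun u v => if F.Adj u v then 1 else 0, fun u v => ?_, fun u v => ?_, fun u v h => ?_, fun v => ?_,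
    fun S h1 h3 => ?_⟩
  · simp only [F.adj_comm]
  · split_ifs <;> norm_num
  · simp [h]
  · have : (∑ w, if F.Adj v w then (1 : ℝ) else 0) = ((F.neighborSet v).ncard : ℝ) := by
      rw [Finset.sum_boole]
      congr 1
      rw [← Set.ncard_coe_finset]
      congr 1
      ext w
      simp
    rw [this, h2]
    norm_num
  · -- the number of edges over the cut is even and positive
    have hnat : (∑ u ∈ S, ∑ v ∈ Sᶜ, if F.Adj u v then (1 : ℝ) else 0) =
        ((∑ u ∈ S, ∑ v ∈ Sᶜ, if F.Adj u v then 1 else 0 : ℕ) : ℝ) := by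
      push_cast
      rfl
    rw [hnat]
    set c : ℕ := ∑ u ∈ S, ∑ v ∈ Sᶜ, if F.Adj u v then 1 else 0 with hcdef
    have hpos : 0 < c := by
      by_contra h0
      have h0' : c = 0 := by omega
      obtain ⟨a, ha⟩ := h1
      obtain ⟨b, hb⟩ : ∃ b, b ∉ S := by
        by_contra hcon
        push Not at hcon
        exact h3 (Finset.eq_univ_iff_forall.2 hcon)
      have hno : ∀ u ∈ S, ∀ v, F.Adj u v → v ∈ S := by
        intro u hu v huv
        by_contra hv
        rw [hcdef, Finset.sum_eq_zero_iff] at h0'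
        have h5 := h0' u hu
        rw [Finset.sum_eq_zero_iff] at h5
        have h6 := h5 v (by simpa using hv)
        simp [huv] at h6
      have hr : ∀ {p q : V}, F.Walk p q → p ∈ S → q ∈ S := by
        intro p q w
        induction w with
        | nil => exact fun h => h
        | cons h _ ih => exact fun hp => ih (hno _ hp _ h)
      obtain ⟨w⟩ := hc.preconnected a b
      exact hb (hr w ha)
    have heven : Even c := by
      have k1 : ∑ u ∈ S, ∑ v, (if F.Adj u v then 1 else 0 : ℕ) = 2 * S.card := by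
        rw [Finset.sum_congr rfl (g := fun _ => 2) fun u _ => ?_]
        · rw [Finset.sum_const, smul_eq_mul, mul_comm]
        · rw [← h2 u, Finset.sum_boole, ← Set.ncard_coe_finset]
          simp only [Nat.cast_id]
          congr 1
          ext w
          simp
      have k2 : ∑ u ∈ S, ∑ v, (if F.Adj u v then 1 else 0 : ℕ) =
          ∑ u ∈ S, ∑ v ∈ S, (if F.Adj u v then 1 else 0) + c := by
        rw [hcdef, ← Finset.sum_add_distrib]
        exact Finset.sum_congr rfl fun u _ => (Finset.sum_add_sum_compl S _).symm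
      have k3 : Even (∑ u ∈ S, ∑ v ∈ S, (if F.Adj u v then 1 else 0 : ℕ)) := by
        have e : ∑ u ∈ S, ∑ v ∈ S, (if F.Adj u v then 1 else 0 : ℕ) = ∑ u : {a // a ∈ S},
            (F.induce {a | a ∈ S}).degree ⟨u.1, u.2⟩ := by
          rw [← Finset.sum_coe_sort S]
          refine Finset.sum_congr rfl fun u _ => ?_
          rw [← Finset.sum_coe_sort S]
          rw [← SimpleGraph.card_neighborFinset_eq_degree, Finset.sum_boole]
          simp only [Nat.cast_id]
          refine Finset.card_bij (fun v _ => ⟨v.1, v.2⟩) (fun v hv => ?_) (fun v _ v' _ h => ?_) (fun v hv => ?_)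
          · simpa using hv
          · exact Subtype.ext (congrArg Subtype.val h)
          · exact ⟨⟨v.1, v.2⟩, by simpa using hv, rfl⟩
        rw [e]
        have := (F.induce {a | a ∈ S}).sum_degrees_eq_twice_card_edges
        have h5 : ∑ u : {a // a ∈ S}, (F.induce {a | a ∈ S}).degree ⟨u.1, u.2⟩ =
            ∑ v, (F.induce {a | a ∈ S}).degree v := rfl
        rw [h5, this]
        exact even_two_mul _
      have k4 : Even (2 * S.card) := even_two_mul _
      rw [← k1, k2] at k4
      exact (Nat.even_add.1 k4).1 k3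
    obtain ⟨m, hm⟩ := heven
    have : 2 ≤ c := by omega
    exact_mod_cast this

end Pool.Agent.Lib.H98SB
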